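import Mathlib

set_option autoImplicit false

namespace Pool.Agent.H789Z.Unav

open Finset

/-- Abstract data: `f S` is the saving accumulated on the coordinates `S`, `g j I` a saving that is
guaranteed when adding `j` to any set containing `I`. -/
structure Sys (ι : Type) [Fintype ι] [DecidableEq ι] (Γ : ℝ) where
  f : Finset ι → ℝ
  g : ι → Finset ι → ℝ
  f0 : ∀ S, 0 ≤ f S
  fmono : ∀ S T, S ⊆ T → f S ≤ f T
  ftop : f univ < Γ
  step : ∀ I S j, I ⊆ S → j ∉ S → f S + g j I ≤ f (insert j S)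
  g0 : ∀ j I, 0 ≤ g j I
  gmono : ∀ j I J, I ⊆ J → g j I ≤ g j J

namespace Sys

variable {ι : Type} [Fintype ι] [DecidableEq ι] {Γ : ℝ} (s : Sys ι Γ)

theorem lt (S : Finset ι) : s.f S < Γ := lt_of_le_of_lt (s.fmono _ _ (subset_univ S)) s.ftop

theorem multi (I S A : Finset ι) (hI : I ⊆ S) (hA : Disjoint A S) :
    s.f S + ∑ x ∈ A, s.g x I ≤ s.f (S ∪ A) := by
  induction A using Finset.induction_on with
  | empty => simp
  | insert a A ha ih =>
    have h1 : Disjoint A S := (disjoint_insert_left.1 hA).2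
    have h2 : a ∉ S := (disjoint_insert_left.1 hA).1
    have h3 := s.step I (S ∪ A) a (hI.trans subset_union_left) (by simp [ha, h2])
    have h4 := ih h1
    rw [sum_insert ha, union_insert]
    linarith

theorem multi' (I S A : Finset ι) (hI : I ⊆ S) (hA : Disjoint A S) (m : ℝ)
    (hm : ∀ x ∈ A, m ≤ s.g x I) : s.f S + A.card * m ≤ s.f (S ∪ A) := by
  have h1 := s.multi I S A hI hA
  have h2 : ∑ _x ∈ A, m ≤ ∑ x ∈ A, s.g x I := sum_le_sum hm
  simp only [sum_const, nsmul_eq_mul] at h2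
  linarith

theorem single (u : ι) : s.g u ∅ ≤ s.f {u} := by
  have h := s.step ∅ ∅ u (Subset.refl _) (by simp)
  have h0 := s.f0 ∅
  simp only [insert_empty_eq] at h
  linarith

theorem pair (u x : ι) (h : x ≠ u) : s.f {u} + s.g x {u} ≤ s.f {x, u} :=
  s.step {u} {u} x (Subset.refl _) (by simpa using h)

theorem glt (j : ι) (I : Finset ι) (h : j ∉ I) : s.g j I < Γ := by
  have h1 := s.step I I j (Subset.refl _) h
  have h2 := s.f0 I
  have h3 := s.lt (insert j I)
  linarith

theorem card_compl_pair (r : ℕ) (hr : Fintype.card ι = r) (a b : ι) (h : a ≠ b) :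
    (((univ : Finset ι) \ {a, b}).card : ℝ) = r - 2 := by
  have h1 : ({a, b} : Finset ι).card = 2 := card_pair h
  have h2 : ({a, b} : Finset ι).card ≤ (univ : Finset ι).card := card_le_card (subset_univ _)
  rw [card_sdiff_of_subset (subset_univ _), Nat.cast_sub h2, h1, card_univ, hr]
  norm_num

theorem card_compl_single (r : ℕ) (hr : Fintype.card ι = r) (a : ι) :
    (((univ : Finset ι) \ {a}).card : ℝ) = r - 1 := by
  have h2 : ({a} : Finset ι).card ≤ (univ : Finset ι).card := card_le_card (subset_univ _)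
  rw [card_sdiff_of_subset (subset_univ _), Nat.cast_sub h2, card_singleton, card_univ, hr]
  norm_num

theorem arbo (r : ℕ) (hr : Fintype.card ι = r) (c : ℝ) (hc : (r - 1) * c = Γ) (a b : ι)
    (hab : b ≠ a) (h1 : c ≤ s.g b {a}) (h2 : ∀ x, x ≠ a → x ≠ b → c ≤ s.g x {b, a}) : False := by
  have h3 := s.pair a b hab
  have h4 := s.f0 {a}
  have h5 := s.multi' {b, a} {b, a} (univ \ {b, a}) (Subset.refl _) sdiff_disjoint c
    (by
      intro x hx
      simp only [mem_sdiff, mem_univ, mem_insert, mem_singleton, true_and, not_or] at hx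
      exact h2 x hx.2 hx.1)
  rw [card_compl_pair r hr b a hab] at h5
  have h6 := s.lt ({b, a} ∪ (univ \ {b, a}))
  nlinarith

theorem exists_ne2 (r : ℕ) (hr : Fintype.card ι = r) (h3 : 3 ≤ r) (a b : ι) :
    ∃ w, w ≠ a ∧ w ≠ b := by
  by_contra hcon
  push Not at hcon
  have : (univ : Finset ι) ⊆ {a, b} := by
    intro w _
    by_cases h : w = a
    · simp [h]
    · simp [hcon w h]
  have h1 := card_le_card this
  have h2 : ({a, b} : Finset ι).card ≤ 2 := card_le_two
  rw [card_univ, hr] at h1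
  omega

/-- The core lemma. -/
theorem core (r : ℕ) (hr : Fintype.card ι = r) (h3 : 3 ≤ r) (c θ : ℝ) (hc : (r - 1) * c = Γ)
    (hθ0 : 0 ≤ θ) (hθ : r * θ ≤ c) :
    ∃ u y z, y ≠ u ∧ z ≠ u ∧ y ≠ z ∧ (∀ x, s.g x ∅ ≤ s.g u ∅ ∨ s.g x ∅ < c - θ) ∧
      s.g y ∅ < c ∧ s.g y {u} < c + θ ∧ s.g z ∅ < c - θ ∧ s.g z {u} < c := by
  have hr3 : (3 : ℝ) ≤ r := by exact_mod_cast h3
  have hne : Nonempty ι := by
    rw [← Fintype.card_pos_iff, hr]; omega
  obtain ⟨u, -, hu⟩ := exists_max_image (univ : Finset ι) (fun x => s.g x ∅) univ_nonempty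
  by_cases hA : c - θ ≤ s.g u ∅
  · have hs := s.single u
    have hz : ∃ z, z ≠ u ∧ s.g z {u} < c - θ := by
      by_contra hcon
      push Not at hcon
      have h5 := s.multi' {u} {u} (univ \ {u}) (Subset.refl _) sdiff_disjoint (c - θ)
        (by
          intro x hx
          simp only [mem_sdiff, mem_univ, mem_singleton, true_and] at hx
          exact hcon x hx)
      rw [card_compl_single r hr u] at h5
      have h6 := s.lt ({u} ∪ (univ \ {u}))
      nlinarith
    obtain ⟨z, hzu, hz⟩ := hz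
    have hz0 : s.g z ∅ ≤ s.g z {u} := s.gmono _ _ _ (empty_subset _)
    have hy : ∃ y, y ≠ u ∧ y ≠ z ∧ s.g y ∅ < c ∧ s.g y {u} < c + θ := by
      by_contra hcon
      push Not at hcon
      have hd : Disjoint (univ \ {u, z} : Finset ι) {u} := by
        rw [disjoint_singleton_right]; simp
      have h6 := s.lt ({u} ∪ (univ \ {u, z}))
      by_cases hB : c ≤ s.g u ∅
      · have h5 := s.multi' {u} {u} (univ \ {u, z}) (Subset.refl _) hd c
          (by
            intro x hx
            simp only [mem_sdiff, mem_univ, mem_insert, mem_singleton, true_and, not_or] at hx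
            have hx0 : s.g x ∅ ≤ s.g x {u} := s.gmono _ _ _ (empty_subset _)
            by_cases h : s.g x ∅ < c
            · have := hcon x hx.1 hx.2 h
              linarith
            · linarith)
        rw [card_compl_pair r hr u z hzu.symm] at h5
        nlinarith
      · have h5 := s.multi' {u} {u} (univ \ {u, z}) (Subset.refl _) hd (c + θ)
          (by
            intro x hx
            simp only [mem_sdiff, mem_univ, mem_insert, mem_singleton, true_and, not_or] at hx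
            have := hu x (mem_univ x)
            exact hcon x hx.1 hx.2 (by linarith))
        rw [card_compl_pair r hr u z hzu.symm] at h5
        nlinarith
    obtain ⟨y, hyu, hyz, hy1, hy2⟩ := hy
    exact ⟨u, y, z, hyu, hzu, hyz, fun x => Or.inl (hu x (mem_univ x)), hy1, hy2, by linarith,
      by linarith⟩
  · have hall : ∀ x, s.g x ∅ < c - θ := by
      intro x
      have := hu x (mem_univ x)
      linarith
    suffices h : ∃ v y z, y ≠ v ∧ z ≠ v ∧ y ≠ z ∧ s.g y {v} < c ∧ s.g z {v} < c by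
      obtain ⟨v, y, z, h1, h2, h3, h4, h5⟩ := h
      have := hall y
      exact ⟨v, y, z, h1, h2, h3, fun x => Or.inr (hall x), by linarith, by linarith, hall z, h5⟩
    by_contra hcon
    push Not at hcon
    have hm : ∀ x a b, s.g x {a} ≤ s.g x {b, a} := fun x a b => s.gmono _ _ _ (by simp)
    have hm' : ∀ x a b, s.g x {b} ≤ s.g x {b, a} := fun x a b => s.gmono _ _ _ (by simp)
    have hz : ∃ z, z ≠ u ∧ s.g z {u} < c := by
      by_contra h
      push Not at h
      obtain ⟨b, hb, -⟩ := exists_ne2 r hr h3 u u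
      exact s.arbo r hr c hc u b hb (h b hb) (fun x hx _ => (h x hx).trans (hm x u b))
    obtain ⟨z, hzu, hz⟩ := hz
    have h7 : ∀ w, w ≠ z → s.g z {w} < c := by
      intro w hw
      by_cases hwu : w = u
      · rw [hwu]; exact hz
      by_contra h
      push Not at h
      refine s.arbo r hr c hc u w hwu (hcon u z w hzu hwu hw.symm hz) ?_
      intro x hx1 hx2
      by_cases hxz : x = z
      · rw [hxz]; exact h.trans (hm' z u w)
      · exact (hcon u z x hzu hx1 (Ne.symm hxz) hz).trans (hm x u w)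
    have h8 : ∃ w, w ≠ z ∧ c ≤ s.g w {z} := by
      obtain ⟨w, hw1, hw2⟩ := exists_ne2 r hr h3 z u
      by_cases h : s.g u {z} < c
      · exact ⟨w, hw1, hcon z u w hzu.symm hw1 hw2.symm h⟩
      · exact ⟨u, hzu.symm, by linarith⟩
    obtain ⟨w, hw, h9⟩ := h8
    refine s.arbo r hr c hc z w hw h9 ?_
    intro x hx1 hx2
    exact (hcon w z x hw.symm hx2 hx1.symm (h7 w hw)).trans (hm' x z w)

omit [Fintype ι] in
theorem two_small (A : Finset ι) (w : ι → ℝ) (hw : ∀ x, 0 ≤ w x) (m : ℝ) (hm : 0 ≤ m)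
    (h : ∑ x ∈ A, w x < (A.card - 1) * m) :
    ∃ a ∈ A, ∃ b ∈ A, a ≠ b ∧ w a < m ∧ w b < m := by
  by_contra hcon
  push Not at hcon
  by_cases h1 : ∃ a ∈ A, w a < m
  · obtain ⟨a, ha, ham⟩ := h1
    have h2 : ∑ _x ∈ A.erase a, m ≤ ∑ x ∈ A.erase a, w x := by
      apply sum_le_sum
      intro x hx
      exact hcon a ha x (mem_of_mem_erase hx) (ne_of_mem_erase hx).symm ham
    have h3 := add_sum_erase A w ha
    have h4 : 1 ≤ A.card := card_pos.2 ⟨a, ha⟩
    simp only [sum_const, nsmul_eq_mul, card_erase_of_mem ha, Nat.cast_sub h4, Nat.cast_one] at h2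
    have := hw a
    linarith
  · push Not at h1
    have h2 : ∑ _x ∈ A, m ≤ ∑ x ∈ A, w x := sum_le_sum h1
    simp only [sum_const, nsmul_eq_mul] at h2
    nlinarith

theorem two_big (lam : ℝ) (hl : Γ ≤ 2 * lam) (S T I J : Finset ι) (a b : ι) (hI : I ⊆ S)
    (ha : a ∉ S) (hT : insert a S ⊆ T) (hJ : J ⊆ T) (hb : b ∉ T) (h1 : lam ≤ s.g a I)
    (h2 : lam ≤ s.g b J) : False := by
  have h3 := s.step I S a hI ha
  have h4 := s.step J T b hJ hb
  have h5 := s.fmono _ _ hT
  have h6 := s.f0 S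
  have h7 := s.lt (insert b T)
  linarith

/-- Choice of the root. -/
theorem root (r : ℕ) (hr : Fintype.card ι = r) (h4 : 4 ≤ r) (c θ lam : ℝ) (hc : (r - 1) * c = Γ)
    (hθ0 : 0 ≤ θ) (hθ : r * θ ≤ c) (hl : 2 * lam = Γ + c) :
    ∃ u y z, y ≠ u ∧ z ≠ u ∧ y ≠ z ∧ (∀ x, x ≠ u → s.g x ∅ < lam ∧ s.g x {u} < lam + θ) ∧
      s.g y ∅ < c ∧ s.g y {u} < c + θ ∧ s.g z ∅ < c - θ ∧ s.g z {u} < c := by
  have hr4 : (4 : ℝ) ≤ r := by exact_mod_cast h4
  have hc0 : 0 ≤ c := by nlinarith
  have hl2 : Γ ≤ 2 * lam := by linarith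
  have hN2 : Γ - lam - θ ≤ (r - 3) * (c - θ) := by
    have h2 : 0 ≤ c - 2 * θ := by nlinarith
    have h3 : 0 ≤ ((r : ℝ) - 4) * (c - 2 * θ) := mul_nonneg (by linarith) h2
    nlinarith
  have hN3 : 0 ≤ c - 2 * θ := by nlinarith
  have he : ∀ x u, s.g x ∅ ≤ s.g x {u} := fun x u => s.gmono _ _ _ (empty_subset _)
  by_cases hS : ∃ u0 x0, x0 ≠ u0 ∧ lam + θ ≤ s.g x0 {u0}
  · have factS : ∀ u0 x0, x0 ≠ u0 → lam + θ ≤ s.g x0 {u0} → ∀ v w, w ≠ v →
        lam + θ ≤ s.g w {v} → w ≠ x0 → v = x0 ∧ w = u0 := by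
      intro u0 x0 h0 h1 v w hwv h2 hwx
      by_contra hcon
      by_cases hv : v = x0
      · have hw : w ≠ u0 := fun h => hcon ⟨hv, h⟩
        exact s.two_big lam hl2 {u0} {x0, u0} {u0} {v} x0 w (Subset.refl _) (by simpa using h0)
          (Subset.refl _) (by simp [hv]) (by simp [hw, hwx]) (by linarith) (by linarith)
      · exact s.two_big lam hl2 {v} {u0, w, v} {v} {u0} w x0 (Subset.refl _) (by simpa using hwv)
          (subset_insert _ _) (by simp) (by simp [h0, Ne.symm hwx, Ne.symm hv]) (by linarith)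
          (by linarith)
    have fact0 : ∀ u0 x0, x0 ≠ u0 → lam + θ ≤ s.g x0 {u0} → ∀ w, w ≠ x0 → s.g w ∅ < lam := by
      intro u0 x0 h0 h1 w hw
      by_contra hcon
      push Not at hcon
      exact s.two_big lam hl2 ∅ {u0, w} ∅ {u0} w x0 (Subset.refl _) (by simp) (by simp) (by simp)
        (by simp [h0, Ne.symm hw]) hcon (by linarith)
    obtain ⟨u0, x0, h0, h1⟩ := hS
    suffices h : ∃ u p, p ≠ u ∧ (∀ x, x ≠ u → s.g x ∅ < lam ∧ s.g x {u} < lam + θ) ∧
        ∑ x ∈ univ \ {u, p}, s.g x {u} + lam + θ < Γ by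
      obtain ⟨u, p, hp, h2, h3⟩ := h
      obtain ⟨a, ha, b, hb, hab, h5, h6⟩ := two_small (univ \ {u, p}) (fun x => s.g x {u})
        (fun x => s.g0 _ _) (c - θ) (by nlinarith)
        (by rw [card_compl_pair r hr u p hp.symm]; linarith)
      simp only [mem_sdiff, mem_univ, mem_insert, mem_singleton, true_and, not_or] at ha hb
      have := he a u
      have := he b u
      exact ⟨u, a, b, ha.1, hb.1, hab, h2, by linarith, by linarith, by linarith, by linarith⟩
    by_cases h2 : lam + θ ≤ s.g u0 {x0}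
    · obtain ⟨u, hu1, hu2⟩ := exists_ne2 r hr (by omega) u0 x0
      refine ⟨u, u0, hu1.symm, ?_, ?_⟩
      · intro x hx
        constructor
        · by_cases hxx : x = x0
          · exact fact0 x0 u0 h0.symm h2 x (by rw [hxx]; exact h0)
          · exact fact0 u0 x0 h0 h1 x hxx
        · by_contra hcon
          push Not at hcon
          by_cases hxx : x = x0
          · exact hu1 (factS x0 u0 h0.symm h2 u x hx hcon (by rw [hxx]; exact h0)).1
          · exact hu2 (factS u0 x0 h0 h1 u x hx hcon hxx).1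
      · have h5 := s.multi {u} {u} (univ \ {u, u0}) (Subset.refl _)
          (by rw [disjoint_singleton_right]; simp)
        have h6 := s.step {x0} ({u} ∪ (univ \ {u, u0})) u0 (by simp [h0, Ne.symm hu2])
          (by simp [Ne.symm hu1])
        have h7 := s.lt (insert u0 ({u} ∪ (univ \ {u, u0})))
        have h8 := s.f0 {u}
        linarith
    · refine ⟨x0, u0, h0.symm, ?_, ?_⟩
      · intro x hx
        refine ⟨fact0 u0 x0 h0 h1 x hx, ?_⟩
        by_contra hcon
        push Not at hcon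
        have := (factS u0 x0 h0 h1 x0 x hx hcon hx).2
        rw [this] at hcon
        exact h2 hcon
      · have h5 := s.multi {x0} {x0, u0} (univ \ {x0, u0}) (by simp) sdiff_disjoint
        have h6 := s.pair u0 x0 h0
        have h7 := s.lt ({x0, u0} ∪ (univ \ {x0, u0}))
        have h8 := s.f0 {u0}
        linarith
  · push Not at hS
    obtain ⟨u, y, z, h1, h2, h3, h5, h6⟩ := s.core r hr (by omega) c θ hc hθ0 hθ
    refine ⟨u, y, z, h1, h2, h3, ?_, h6⟩
    intro x hx
    refine ⟨?_, hS u x hx⟩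
    rcases h5 x with h | h
    · by_contra hcon
      push Not at hcon
      exact s.two_big lam hl2 ∅ {u} ∅ ∅ u x (Subset.refl _) (by simp) (by simp) (by simp)
        (by simpa using hx) (by linarith) hcon
    · nlinarith

theorem no_path (lam : ℝ) (hl : Γ ≤ 2 * lam) (a b d : ι) (hab : a ≠ b)
    (h1 : lam ≤ s.g a (univ \ {a, b})) (h2 : lam ≤ s.g b (univ \ {b, d})) : False := by
  refine s.two_big lam hl (univ \ {a, b}) (univ \ {b}) _ _ a b (Subset.refl _) (by simp) ?_ ?_
    (by simp) h1 h2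
  · intro x hx
    simp only [mem_insert, mem_sdiff, mem_univ, mem_singleton, true_and, not_or] at hx ⊢
    rcases hx with hx | hx
    · rw [hx]; exact hab
    · exact hx.2
  · intro x hx
    simp only [mem_insert, mem_sdiff, mem_univ, mem_singleton, true_and, not_or] at hx ⊢
    exact hx.1

theorem card_compl_triple (r : ℕ) (hr : Fintype.card ι = r) (a b d : ι) (h1 : a ≠ b) (h2 : a ≠ d)
    (h3 : b ≠ d) : (((univ : Finset ι) \ {a, b, d}).card : ℝ) = r - 3 := by
  have h1 : ({a, b, d} : Finset ι).card = 3 := card_eq_three.2 ⟨a, b, d, h1, h2, h3, rfl⟩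
  have h2 : ({a, b, d} : Finset ι).card ≤ (univ : Finset ι).card := card_le_card (subset_univ _)
  rw [card_sdiff_of_subset (subset_univ _), Nat.cast_sub h2, h1, card_univ, hr]
  norm_num

/-- The combinatorial lemma for `r ≥ 4`. -/
theorem main4 (r : ℕ) (hr : Fintype.card ι = r) (h4 : 4 ≤ r) (c θ lam : ℝ) (hc : (r - 1) * c = Γ)
    (hθ0 : 0 ≤ θ) (hθ : r * θ ≤ c) (hl : 2 * lam = Γ + c) :
    ∃ u y z, y ≠ u ∧ z ≠ u ∧ y ≠ z ∧ (∀ x, x ≠ u → s.g x ∅ < lam ∧ s.g x {u} < lam + θ) ∧
      s.g y ∅ < c ∧ s.g y {u} < c + θ ∧ s.g z ∅ < c - θ ∧ s.g z {u} < c ∧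
      s.g y (univ \ {y, z}) < lam + θ ∧ s.g z (univ \ {y, z}) < lam := by
  have hr4 : (4 : ℝ) ≤ r := by exact_mod_cast h4
  have hc0 : 0 ≤ c := by nlinarith
  have hl2 : Γ ≤ 2 * lam := by linarith
  have hN2 : Γ - lam - θ ≤ (r - 3) * (c - θ) := by
    have h2 : 0 ≤ c - 2 * θ := by nlinarith
    have h3 : 0 ≤ ((r : ℝ) - 4) * (c - 2 * θ) := mul_nonneg (by linarith) h2
    nlinarith
  have hN3 : 0 ≤ c - 2 * θ := by nlinarith
  have he : ∀ x u, s.g x ∅ ≤ s.g x {u} := fun x u => s.gmono _ _ _ (empty_subset _)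
  obtain ⟨u, y, z, hyu, hzu, hyz, hA, hy1, hy2, hz1, hz2⟩ := s.root r hr h4 c θ lam hc hθ0 hθ hl
  -- if everything outside `u, a, b` is not light, the saving on the complement of `a, b` is large
  have key : ∀ a b, a ≠ u → b ≠ u → a ≠ b →
      (∀ x, x ≠ u → x ≠ a → x ≠ b → c - θ ≤ s.g x {u}) → Γ - lam - θ ≤ s.f (univ \ {a, b}) := by
    intro a b ha hb hab h
    have h5 := s.multi' {u} {u} (univ \ {u, a, b}) (Subset.refl _)
      (by rw [disjoint_singleton_right]; simp) (c - θ)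
      (by
        intro x hx
        simp only [mem_sdiff, mem_univ, mem_insert, mem_singleton, true_and, not_or] at hx
        exact h x hx.1 hx.2.1 hx.2.2)
    rw [card_compl_triple r hr u a b ha.symm hb.symm hab] at h5
    have h6 : s.f ({u} ∪ (univ \ {u, a, b})) ≤ s.f (univ \ {a, b}) := by
      apply s.fmono
      intro x hx
      simp only [mem_union, mem_sdiff, mem_univ, mem_insert, mem_singleton, true_and,
        not_or] at hx ⊢
      rcases hx with hx | hx
      · rw [hx]; exact ⟨ha.symm, hb.symm⟩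
      · exact hx.2
    have h7 := s.f0 {u}
    linarith
  have key2 : ∀ a b, Γ - lam - θ ≤ s.f (univ \ {a, b}) → ∀ x, x = a ∨ x = b →
      s.g x (univ \ {a, b}) < lam + θ := by
    intro a b h x hx
    have h1 := s.step (univ \ {a, b}) (univ \ {a, b}) x (Subset.refl _) (by
      rcases hx with hx | hx <;> simp [hx])
    have h2 := s.lt (insert x (univ \ {a, b}))
    linarith
  have notZ : ∀ x, ¬ (s.g x ∅ < c - θ ∧ s.g x {u} < c) → c - θ ≤ s.g x {u} := by
    intro x hx
    have := he x u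
    by_cases h : s.g x ∅ < c - θ
    · have : c ≤ s.g x {u} := by
        by_contra h'
        exact hx ⟨h, by linarith⟩
      linarith
    · linarith
  have fin : ∀ a b, a ≠ u → b ≠ u → a ≠ b → (s.g a ∅ < c - θ ∧ s.g a {u} < c) →
      (s.g b ∅ < c - θ ∧ s.g b {u} < c) → s.g a (univ \ {a, b}) < lam + θ →
      s.g b (univ \ {a, b}) < lam →
      ∃ u y z, y ≠ u ∧ z ≠ u ∧ y ≠ z ∧ (∀ x, x ≠ u → s.g x ∅ < lam ∧ s.g x {u} < lam + θ) ∧
      s.g y ∅ < c ∧ s.g y {u} < c + θ ∧ s.g z ∅ < c - θ ∧ s.g z {u} < c ∧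
      s.g y (univ \ {y, z}) < lam + θ ∧ s.g z (univ \ {y, z}) < lam := by
    intro a b ha hb hab h1 h2 h3 h5
    exact ⟨u, a, b, ha, hb, hab, hA, by linarith [h1.1], by linarith [h1.2], h2.1, h2.2, h3, h5⟩
  have pc : ∀ a b : ι, (univ \ {a, b} : Finset ι) = univ \ {b, a} := fun a b => by rw [pair_comm]
  by_cases hZ2 : ∃ z', z' ≠ u ∧ z' ≠ z ∧ (s.g z' ∅ < c - θ ∧ s.g z' {u} < c)
  · obtain ⟨z', h1, h2, h3⟩ := hZ2
    by_cases hZ3 : ∃ w, w ≠ u ∧ w ≠ z ∧ w ≠ z' ∧ (s.g w ∅ < c - θ ∧ s.g w {u} < c)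
    · obtain ⟨w, h5, h6, h7, h8⟩ := hZ3
      have good : ∀ a b, a ≠ u → b ≠ u → a ≠ b → (s.g a ∅ < c - θ ∧ s.g a {u} < c) →
          (s.g b ∅ < c - θ ∧ s.g b {u} < c) →
          (lam ≤ s.g a (univ \ {a, b}) ∨ lam ≤ s.g b (univ \ {b, a})) ∨
          ∃ u y z, y ≠ u ∧ z ≠ u ∧ y ≠ z ∧ (∀ x, x ≠ u → s.g x ∅ < lam ∧ s.g x {u} < lam + θ) ∧
          s.g y ∅ < c ∧ s.g y {u} < c + θ ∧ s.g z ∅ < c - θ ∧ s.g z {u} < c ∧
          s.g y (univ \ {y, z}) < lam + θ ∧ s.g z (univ \ {y, z}) < lam := by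
        intro a b ha hb hab p1 p2
        by_cases q : lam ≤ s.g a (univ \ {a, b}) ∨ lam ≤ s.g b (univ \ {b, a})
        · exact Or.inl q
        · push Not at q
          exact Or.inr (fin a b ha hb hab p1 p2 (by linarith [q.1]) (by rw [pc]; exact q.2))
      rcases good z z' hzu h1 h2.symm ⟨hz1, hz2⟩ h3 with q1 | q1
      swap
      · exact q1
      rcases good z w hzu h5 h6.symm ⟨hz1, hz2⟩ h8 with q2 | q2
      swap
      · exact q2
      rcases good z' w h1 h5 h7.symm h3 h8 with q3 | q3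
      swap
      · exact q3
      exfalso
      rcases q1 with q1 | q1 <;> rcases q2 with q2 | q2 <;> rcases q3 with q3 | q3
      · exact s.no_path lam hl2 z z' w h2.symm q1 q3
      · exact s.no_path lam hl2 z w z' h6.symm q2 q3
      · exact s.no_path lam hl2 w z z' h6 q2 q1
      · exact s.no_path lam hl2 w z z' h6 q2 q1
      · exact s.no_path lam hl2 z' z w h2 q1 q2
      · exact s.no_path lam hl2 z' z w h2 q1 q2
      · exact s.no_path lam hl2 z' w z h7.symm q3 q2
      · exact s.no_path lam hl2 w z' z h7 q3 q1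
    · push Not at hZ3
      have h5 := key z z' hzu h1 h2.symm (fun x p1 p2 p3 => notZ x (by
        intro h; exact absurd h.2 (not_lt.2 (hZ3 x p1 p2 p3 h.1))))
      have h6 := key2 z z' h5 z (Or.inl rfl)
      have h7 := key2 z z' h5 z' (Or.inr rfl)
      by_cases q : lam ≤ s.g z (univ \ {z, z'})
      · have q' : s.g z' (univ \ {z, z'}) < lam := by
          by_contra hcon
          push Not at hcon
          rw [pc] at hcon
          exact s.no_path lam hl2 z z' z h2.symm q hcon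
        exact fin z z' hzu h1 h2.symm ⟨hz1, hz2⟩ h3 h6 q'
      · exact fin z' z h1 hzu h2 h3 ⟨hz1, hz2⟩ (by rw [pc]; exact h7) (by rw [pc]; linarith)
  · push Not at hZ2
    have hn : ∀ x, x ≠ u → x ≠ z → c - θ ≤ s.g x {u} := fun x p1 p2 => notZ x (by
      intro h; exact absurd h.2 (not_lt.2 (hZ2 x p1 p2 h.1)))
    have h5 := key y z hyu hzu hyz (fun x p1 _ p3 => hn x p1 p3)
    have h6 := key2 y z h5 y (Or.inl rfl)
    refine ⟨u, y, z, hyu, hzu, hyz, hA, hy1, hy2, hz1, hz2, h6, ?_⟩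
    have h7 := s.step {u} (univ \ {y, z}) y (by simp [Ne.symm hyu, Ne.symm hzu]) (by simp)
    have h8 := s.step (univ \ {y, z}) (insert y (univ \ {y, z})) z (subset_insert _ _)
      (by simp [Ne.symm hyz])
    have h9 := s.lt (insert z (insert y (univ \ {y, z})))
    have := hn y hyu hyz
    linarith

/-- The case `r = 2`. -/
theorem main2 (hr : Fintype.card ι = 2) : ∃ u z, z ≠ u ∧ 2 * s.g z ∅ < Γ := by
  obtain ⟨a, b, hab, -⟩ := card_eq_two.1 (show (univ : Finset ι).card = 2 from hr)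
  have h1 := s.single a
  have h2 := s.step ∅ {a} b (empty_subset _) (by simpa using hab.symm)
  have h3 := s.lt (insert b {a})
  by_cases h : 2 * s.g b ∅ < Γ
  · exact ⟨a, b, hab.symm, h⟩
  · exact ⟨b, a, hab, by linarith⟩

end Sys

end Pool.Agent.H789Z.Unav
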