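import Mathlib

set_option autoImplicit false

namespace Pool.Agent.H789Z.Unav

open Finset

variable {V : Type} [DecidableEq V] {r : ℕ} (d : Fin r → ℕ)

/-- Two words agree on the levels between `i` and `j`. -/
def Agree (i j : ℕ) (w w' : (l : Fin r) → Fin (d l)) : Prop :=
  ∀ l : Fin r, i ≤ l.val → l.val ≤ j → w l = w' l

/-- Product of the branching numbers on the levels between `i` and `j`. -/
def DD (i j : ℕ) : ℕ := ∏ l : Fin r, if i ≤ l.val ∧ l.val ≤ j then d l else 1

/-- A generalised star on the levels `≥ i` inside the family `T` of tuples. -/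
def Emb (i : ℕ) (T : Set (Fin r → V)) : Prop :=
  ∃ Φ : ((l : Fin r) → Fin (d l)) → Fin r → V, (∀ w, Φ w ∈ T) ∧
    ∀ j : Fin r, i ≤ j.val → ∀ w w', Φ w j = Φ w' j ↔ Agree d i j w w'

/-- Determination rules covering the family `T`. -/
def Cov (i : ℕ) (T : Set (Fin r → V)) : Prop :=
  ∃ W : ℕ → Fin r → (Fin r → V) → Finset V, (∀ a j x, (W a j x).card ≤ DD d a j) ∧
    (∀ a j x y, (∀ l : Fin r, l.val < a → x l = y l) → W a j x = W a j y) ∧
    ∀ x ∈ T, ∃ a : ℕ, ∃ j : Fin r, i ≤ a ∧ a ≤ j.val ∧ x j ∈ W a j x

theorem card_image_le_DD (hd : ∀ l, 0 < d l) (a j : ℕ) (F : ((l : Fin r) → Fin (d l)) → V)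
    (hF : ∀ w w', Agree d a j w w' → F w = F w') : (univ.image F).card ≤ DD d a j := by
  let P : Finset ((l : Fin r) → Fin (d l)) :=
    Fintype.piFinset (fun l => if a ≤ l.val ∧ l.val ≤ j then univ else {⟨0, hd l⟩})
  have h1 : univ.image F ⊆ P.image F := by
    intro v hv
    obtain ⟨w, -, rfl⟩ := mem_image.1 hv
    refine mem_image.2 ⟨fun l => if a ≤ l.val ∧ l.val ≤ j then w l else ⟨0, hd l⟩, ?_, ?_⟩
    · simp only [P, Fintype.mem_piFinset]
      intro l
      split_ifs <;> simp
    · apply hF
      intro l h1 h2
      simp [h1, h2]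
  have h2 : P.card = DD d a j := by
    simp only [P, Fintype.card_piFinset, DD]
    apply prod_congr rfl
    intro l _
    split_ifs <;> simp
  calc (univ.image F).card ≤ (P.image F).card := card_le_card h1
    _ ≤ P.card := card_image_le
    _ = DD d a j := h2

theorem DD_succ (i : Fin r) (j : ℕ) (h : i.val ≤ j) : DD d i j = d i * DD d (i + 1) j := by
  unfold DD
  rw [← mul_prod_erase univ _ (mem_univ i), ← mul_prod_erase univ _ (mem_univ i)]
  have h1 : ¬ (i.val + 1 ≤ i.val ∧ i.val ≤ j) := by omega
  rw [if_pos ⟨le_refl _, h⟩, if_neg h1, one_mul]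
  congr 1
  apply prod_congr rfl
  intro l hl
  have h2 : l.val ≠ i.val := fun h => (ne_of_mem_erase hl) (Fin.ext h)
  have h3 : (i.val ≤ l.val ∧ l.val ≤ j) ↔ (i.val + 1 ≤ l.val ∧ l.val ≤ j) := by omega
  simp only [h3]

theorem dich_step (hd : ∀ l, 0 < d l) (i : Fin r)
    (ih : ∀ T : Set (Fin r → V), Emb d (i.val + 1) T ∨ Cov d (i.val + 1) T)
    (T : Set (Fin r → V)) : Emb d i.val T ∨ Cov d i.val T := by
  classical
  by_cases hC : Cov d i.val T
  · exact Or.inr hC
  left
  have claim : ∀ m : ℕ, m ≤ d i → ∃ Φ : ℕ → ((l : Fin r) → Fin (d l)) → Fin r → V,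
      (∀ a, a < m → ∀ w, Φ a w ∈ T) ∧
      (∀ a, a < m → ∀ j : Fin r, i.val ≤ j.val → ∀ w w',
        Φ a w j = Φ a w' j ↔ Agree d (i.val + 1) j w w') ∧
      (∀ a b, a < m → b < m → a ≠ b → ∀ j : Fin r, i.val ≤ j.val → ∀ w w', Φ a w j ≠ Φ b w' j) := by
    intro m
    induction m with
    | zero =>
      intro _
      have hT : T.Nonempty := by
        by_contra h
        apply hC
        refine ⟨fun _ _ _ => ∅, by simp, by simp, ?_⟩
        intro x hx
        exact absurd ⟨x, hx⟩ h
      obtain ⟨x, -⟩ := hT
      exact ⟨fun _ _ => x, by simp, by simp, by simp⟩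
    | succ m ihm =>
      intro hm
      obtain ⟨Φ, h1, h2, h3⟩ := ihm (by omega)
      let U : Fin r → Finset V := fun j => (range m).biUnion (fun a => univ.image (fun w => Φ a w j))
      have hU : ∀ j : Fin r, i.val ≤ j.val → (U j).card ≤ DD d i j := by
        intro j hj
        rw [DD_succ d i j hj]
        calc (U j).card ≤ ∑ a ∈ range m, (univ.image (fun w => Φ a w j)).card := card_biUnion_le
          _ ≤ ∑ _a ∈ range m, DD d (i + 1) j := by
            apply sum_le_sum
            intro a ha
            exact card_image_le_DD d hd _ _ _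
              (fun w w' h => (h2 a (mem_range.1 ha) j hj w w').2 h)
          _ = m * DD d (i + 1) j := by simp
          _ ≤ d i * DD d (i + 1) j := Nat.mul_le_mul_right _ (by omega)
      let Tv : V → Set (Fin r → V) := fun v =>
        {x | x ∈ T ∧ x i = v ∧ ∀ j : Fin r, i.val ≤ j.val → x j ∉ U j}
      have hex : ∃ v, Emb d (i.val + 1) (Tv v) := by
        by_contra hcon
        push Not at hcon
        have hall : ∀ v, Cov d (i.val + 1) (Tv v) := fun v => (ih (Tv v)).resolve_left (hcon v)
        choose W hW1 hW2 hW3 using hall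
        apply hC
        refine ⟨fun a j x => if a = i.val then (if i.val ≤ j.val then U j else ∅) else
          (if i.val < a then W (x i) a j x else ∅), ?_, ?_, ?_⟩
        · intro a j x
          by_cases ha : a = i.val
          · by_cases hj : i.val ≤ j.val
            · simp only [ha, hj, if_true]; exact hU j hj
            · simp [ha, hj]
          · by_cases hj : i.val < a
            · simp only [ha, hj, if_true, if_false]; exact hW1 _ _ _ _
            · simp [ha, hj]
        · intro a j x y hxy
          by_cases ha : a = i.val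
          · simp [ha]
          · by_cases hj : i.val < a
            · simp only [ha, hj, if_true, if_false]
              rw [← hxy i hj]
              exact hW2 _ _ _ _ _ hxy
            · simp [ha, hj]
        · intro x hx
          by_cases hx2 : ∀ j : Fin r, i.val ≤ j.val → x j ∉ U j
          · obtain ⟨a, j, p1, p2, p3⟩ := hW3 (x i) x ⟨hx, rfl, hx2⟩
            refine ⟨a, j, by omega, p2, ?_⟩
            have q1 : a ≠ i.val := by omega
            have q2 : i.val < a := by omega
            simp only [q1, q2, if_true, if_false]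
            exact p3
          · push Not at hx2
            obtain ⟨j, p1, p2⟩ := hx2
            refine ⟨i.val, j, le_refl _, p1, ?_⟩
            simp only [p1, if_true]
            exact p2
      obtain ⟨v, Ψ, g1, g2⟩ := hex
      have hmem : ∀ a, a < m → ∀ j : Fin r, ∀ w, Φ a w j ∈ U j := by
        intro a ha j w
        exact mem_biUnion.2 ⟨a, mem_range.2 ha, mem_image.2 ⟨w, mem_univ _, rfl⟩⟩
      refine ⟨fun a => if a = m then Ψ else Φ a, ?_, ?_, ?_⟩
      · intro a ha w
        by_cases h : a = m
        · simp only [h, if_true]; exact (g1 w).1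
        · simp only [h, if_false]; exact h1 a (by omega) w
      · intro a ha j hj w w'
        by_cases h : a = m
        · simp only [h, if_true]
          by_cases hj' : i.val + 1 ≤ j.val
          · exact g2 j hj' w w'
          · have hji : j = i := Fin.ext (by omega)
            subst hji
            constructor
            · intro _ l p1 p2; omega
            · intro _; rw [(g1 w).2.1, (g1 w').2.1]
        · simp only [h, if_false]; exact h2 a (by omega) j hj w w'
      · intro a b ha hb hab j hj w w'
        by_cases h : a = m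
        · have h' : b ≠ m := by omega
          simp only [h, h', if_true, if_false]
          intro he
          exact (g1 w).2.2 j hj (he ▸ hmem b (by omega) j w')
        · by_cases h' : b = m
          · simp only [h, h', if_true, if_false]
            intro he
            exact (g1 w').2.2 j hj (he ▸ hmem a (by omega) j w)
          · simp only [h, h', if_false]
            exact h3 a b (by omega) (by omega) hab j hj w w'
  obtain ⟨Φ, h1, h2, h3⟩ := claim (d i) (le_refl _)
  refine ⟨fun w => Φ (w i).val w, fun w => h1 _ (w i).isLt w, ?_⟩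
  intro j hj w w'
  constructor
  · intro he
    have hi : (w i).val = (w' i).val := by
      by_contra hne
      exact h3 _ _ (w i).isLt (w' i).isLt hne j hj w w' he
    simp only [← hi] at he
    have ha := (h2 _ (w i).isLt j hj w w').1 he
    intro l p1 p2
    by_cases hl : i.val + 1 ≤ l.val
    · exact ha l hl p2
    · have hli : l = i := Fin.ext (by omega)
      subst hli
      exact Fin.ext hi
  · intro ha
    have hi : w i = w' i := ha i (le_refl _) hj
    simp only [← hi]
    exact (h2 _ (w i).isLt j hj w w').2 (fun l p1 p2 => ha l (by omega) p2)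

theorem dich (hd : ∀ l, 0 < d l) (k : ℕ) : ∀ i : ℕ, i + k = r →
    ∀ T : Set (Fin r → V), Emb d i T ∨ Cov d i T := by
  induction k with
  | zero =>
    intro i hi T
    by_cases hT : T.Nonempty
    · obtain ⟨x, hx⟩ := hT
      left
      refine ⟨fun _ => x, fun _ => hx, ?_⟩
      intro j hj
      have := j.isLt
      omega
    · right
      refine ⟨fun _ _ _ => ∅, by simp, by simp, ?_⟩
      intro x hx
      exact absurd ⟨x, hx⟩ hT
  | succ k ih =>
    intro i hi T
    exact dich_step d hd ⟨i, by omega⟩ (ih (i + 1) (by omega)) T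

end Pool.Agent.H789Z.Unav
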