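import Pool.Agent.H789Z.Unav.Order
import Pool.Agent.H789Z.Unav.Emb

set_option autoImplicit false

namespace Pool.Agent.H789Z.Unav

open Finset

theorem exists_big_fiber {α β : Type} [Fintype β] [DecidableEq β] [Nonempty β] (s : Finset α)
    (f : α → β) : ∃ y, s.card ≤ Fintype.card β * (s.filter (fun x => f x = y)).card := by
  obtain ⟨y, -, hy⟩ := exists_max_image (univ : Finset β)
    (fun y => (s.filter (fun x => f x = y)).card) univ_nonempty
  refine ⟨y, ?_⟩
  rw [card_eq_sum_card_fiberwise (f := f) (s := s) (t := univ) (fun _ _ => mem_coe.2 (mem_univ _))]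
  calc ∑ b, (s.filter (fun x => f x = b)).card ≤ ∑ _b : β, (s.filter (fun x => f x = y)).card :=
        sum_le_sum hy
    _ = _ := by simp

variable {V : Type} [DecidableEq V] {r : ℕ}

/-- Projection of a tuple to the coordinates in `S`. -/
def proj (S : Finset (Fin r)) (x : Fin r → V) : Fin r → Option V :=
  fun l => if l ∈ S then some (x l) else none

theorem card_proj_insert (T : Finset (Fin r → V)) (S : Finset (Fin r)) (j : Fin r)
    (W : (Fin r → V) → Finset V) (D : ℕ) (hD : ∀ x, (W x).card ≤ D)
    (hW : ∀ x y, (∀ l ∈ S, x l = y l) → W x = W y) (hx : ∀ x ∈ T, x j ∈ W x) :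
    (T.image (proj (insert j S))).card ≤ D * (T.image (proj S)).card := by
  let ρ : (Fin r → Option V) → (Fin r → Option V) := fun p l => if l ∈ S then p l else none
  have hρ : ∀ x : Fin r → V, ρ (proj (insert j S) x) = proj S x := by
    intro x
    funext l
    by_cases h : l ∈ S <;> simp [ρ, proj, h]
  apply card_le_mul_card_image_of_maps_to (f := ρ)
  · intro p hp
    obtain ⟨x, hxT, rfl⟩ := mem_image.1 hp
    rw [hρ]
    exact mem_image_of_mem _ hxT
  · intro b hb
    obtain ⟨x0, hx0, rfl⟩ := mem_image.1 hb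
    have hag : ∀ x : Fin r → V, proj S x = proj S x0 → ∀ l ∈ S, x l = x0 l := by
      intro x h l hl
      have := congrFun h l
      simpa [proj, hl] using this
    calc _ ≤ ((W x0).image some).card := by
          apply card_le_card_of_injOn (fun p => p j)
          · intro p hp
            obtain ⟨hp1, hp2⟩ := mem_filter.1 (mem_coe.1 hp)
            obtain ⟨x, hxT, rfl⟩ := mem_image.1 hp1
            rw [hρ] at hp2
            have h1 := hW x x0 (hag x hp2)
            have h2 := hx x hxT
            rw [h1] at h2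
            simp [proj, h2]
          · intro p hp q hq hpq
            obtain ⟨hp1, hp2⟩ := mem_filter.1 (mem_coe.1 hp)
            obtain ⟨x, hxT, rfl⟩ := mem_image.1 hp1
            obtain ⟨hq1, hq2⟩ := mem_filter.1 (mem_coe.1 hq)
            obtain ⟨y, hyT, rfl⟩ := mem_image.1 hq1
            rw [hρ] at hp2 hq2
            funext l
            by_cases h : l = j
            · rw [h]; exact hpq
            · by_cases h' : l ∈ S
              · simp [proj, h', hag x hp2 l h', hag y hq2 l h']
              · simp [proj, h, h']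
      _ ≤ (W x0).card := card_image_le
      _ ≤ D := hD x0

theorem exists_sys (n : ℕ) (hn : 0 < n) (T : Finset (Fin r → Fin n)) (hT : T.Nonempty) (Γ : ℝ)
    (hΓ : r * Real.log n - Real.log T.card < Γ) :
    ∃ s : Sys (Fin r) Γ, ∀ (I : Finset (Fin r)) (j : Fin r) (W : (Fin r → Fin n) → Finset (Fin n))
      (D : ℕ), j ∉ I → (∀ x, (W x).card ≤ D) → (∀ x y, (∀ l ∈ I, x l = y l) → W x = W y) →
      (∀ x ∈ T, x j ∈ W x) → Real.log n - Real.log D ≤ s.g j I := by
  let N : Finset (Fin r) → ℕ := fun S => (T.image (proj S)).card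
  have hN : ∀ S, (0 : ℝ) < N S := fun S => by
    have : 0 < N S := card_pos.2 (hT.image _)
    exact_mod_cast this
  let f : Finset (Fin r) → ℝ := fun S => S.card * Real.log n - Real.log (N S)
  have hstep : ∀ (S : Finset (Fin r)) (j : Fin r) (W : (Fin r → Fin n) → Finset (Fin n))
      (D : ℕ), j ∉ S → (∀ x, (W x).card ≤ D) → (∀ x y, (∀ l ∈ S, x l = y l) → W x = W y) →
      (∀ x ∈ T, x j ∈ W x) → Real.log n - Real.log D ≤ f (insert j S) - f S := by
    intro S j W D hj h1 h2 h3
    have h4 : N (insert j S) ≤ D * N S := card_proj_insert T S j W D h1 h2 h3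
    have h5 : (N (insert j S) : ℝ) ≤ D * N S := by exact_mod_cast h4
    have hD : (0 : ℝ) < D := by
      by_contra h
      have h6 : (D : ℝ) = 0 := le_antisymm (not_lt.1 h) (Nat.cast_nonneg _)
      rw [h6] at h5
      have := hN (insert j S)
      linarith
    have h6 := Real.log_le_log (hN _) h5
    rw [Real.log_mul hD.ne' (hN S).ne'] at h6
    simp only [f, card_insert_of_notMem hj]
    push_cast
    linarith
  have hins : ∀ S j, f S ≤ f (insert j S) := by
    intro S j
    by_cases hj : j ∈ S
    · rw [insert_eq_of_mem hj]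
    · have := hstep S j (fun _ => univ) n hj (by simp) (by simp) (by simp)
      linarith
  have hmono : ∀ S S', S ⊆ S' → f S ≤ f S' := by
    have h : ∀ S A, f S ≤ f (S ∪ A) := by
      intro S A
      induction A using Finset.induction_on with
      | empty => simp
      | insert a A _ ih => rw [union_insert]; exact ih.trans (hins _ _)
    intro S S' hS
    have := h S S'
    rwa [union_eq_right.2 hS] at this
  have hf0 : f ∅ = 0 := by
    have : N ∅ = 1 := by
      obtain ⟨x, hx⟩ := hT
      apply card_eq_one.2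
      refine ⟨fun _ => none, ?_⟩
      apply eq_singleton_iff_unique_mem.2
      constructor
      · exact mem_image.2 ⟨x, hx, by funext l; simp [proj]⟩
      · intro p hp
        obtain ⟨y, -, rfl⟩ := mem_image.1 hp
        funext l; simp [proj]
    simp [f, this]
  have hfn : ∀ S, 0 ≤ f S := fun S => by
    have := hmono ∅ S (empty_subset _)
    linarith
  have hft : f univ < Γ := by
    have : N univ = T.card := by
      apply card_image_of_injective
      intro x y h
      funext l
      have := congrFun h l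
      simpa [proj] using this
    simp only [f, this, card_univ, Fintype.card_fin]
    exact hΓ
  let val : Fin r → Finset (Fin r) → Finset (Fin r) → ℝ := fun j I S =>
    if I ⊆ S ∧ j ∉ S then f (insert j S) - f S else f univ
  let g : Fin r → Finset (Fin r) → ℝ := fun j I => univ.inf' univ_nonempty (val j I)
  have hvle : ∀ j S, f (insert j S) - f S ≤ f univ := fun j S => by
    have := hmono (insert j S) univ (subset_univ _)
    have := hfn S
    linarith
  refine ⟨⟨f, g, hfn, hmono, hft, ?_, ?_, ?_⟩, ?_⟩
  · intro I S j hI hj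
    have : g j I ≤ val j I S := inf'_le _ (mem_univ S)
    simp only [val, hI, hj, not_false_eq_true, and_self, if_true] at this
    linarith
  · intro j I
    apply (le_inf'_iff univ_nonempty _).2
    intro S _
    simp only [val]
    split_ifs
    · have := hins S j
      linarith
    · exact hfn _
  · intro j I J hIJ
    apply (le_inf'_iff univ_nonempty _).2
    intro S _
    refine (inf'_le _ (mem_univ S)).trans ?_
    simp only [val]
    by_cases h : J ⊆ S ∧ j ∉ S
    · rw [if_pos h, if_pos ⟨hIJ.trans h.1, h.2⟩]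
    · rw [if_neg h]
      split_ifs
      · exact hvle _ _
      · exact le_refl _
  · intro I j W D hj h1 h2 h3
    apply (le_inf'_iff univ_nonempty _).2
    intro S _
    simp only [val]
    split_ifs with h
    · exact hstep S j W D h.2 h1 (fun x y hxy => h2 x y (fun l hl => hxy l (h.1 hl))) h3
    · exact (hstep I j W D hj h1 h2 h3).trans (hvle _ _)

theorem exists_emb (hr : 2 ≤ r) (n : ℕ) (hn : 0 < n) (d : Fin r → ℕ) (hd : ∀ l, 0 < d l)
    (Γ c α θ : ℝ) (hc : (r - 1) * c = Γ) (hθ0 : 0 ≤ θ) (hθ : r * θ ≤ c) (hα : 2 * α = Γ - c)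
    (hℓ : Γ + θ ≤ Real.log n)
    (hD : ∀ (i : ℕ) (j : Fin r), i ≤ j.val →
      Real.log (DD d i j) ≤ wt r (Real.log n - Γ) α θ i j)
    (T : Finset (Fin r → Fin n)) (hT : T.Nonempty)
    (hΓ : r * Real.log n + Real.log (Fintype.card (Equiv.Perm (Fin r) → Fin r × Fin r))
      - Real.log T.card < Γ) :
    ∃ π : Equiv.Perm (Fin r), Emb d 0 {y : Fin r → Fin n | y ∘ π.symm ∈ T} := by
  classical
  by_contra hcon
  push Not at hcon
  have hcov : ∀ π : Equiv.Perm (Fin r), Cov d 0 {y : Fin r → Fin n | y ∘ π.symm ∈ T} :=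
    fun π => (dich d hd r 0 (by omega) _).resolve_left (hcon π)
  choose W hW1 hW2 hW3 using hcov
  have hty : ∀ x : Fin r → Fin n, ∀ π : Equiv.Perm (Fin r), ∃ p : Fin r × Fin r, x ∈ T →
      p.1.val ≤ p.2.val ∧ x (π p.2) ∈ W π p.1.val p.2 (x ∘ π) := by
    intro x π
    by_cases hx : x ∈ T
    · obtain ⟨a, j, -, h2, h3⟩ := hW3 π (x ∘ π) (by
        show (x ∘ π) ∘ π.symm ∈ T
        have : (x ∘ π) ∘ π.symm = x := by funext l; simp
        rw [this]; exact hx)
      exact ⟨(⟨a, by have := j.isLt; omega⟩, j), fun _ => ⟨h2, h3⟩⟩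
    · exact ⟨(⟨0, by omega⟩, ⟨0, by omega⟩), fun h => absurd h hx⟩
  choose ty hty using hty
  have : Nonempty (Fin r) := ⟨⟨0, by omega⟩⟩
  obtain ⟨t, ht⟩ := exists_big_fiber T ty
  set T2 := T.filter (fun x => ty x = t) with hT2
  have hTpos : 0 < T.card := card_pos.2 hT
  have hT2pos : 0 < T2.card := by
    by_contra h
    have : T2.card = 0 := by omega
    rw [this] at ht
    omega
  have hC : 0 < Fintype.card (Equiv.Perm (Fin r) → Fin r × Fin r) := Fintype.card_pos
  have hlog : Real.log T.card ≤
      Real.log (Fintype.card (Equiv.Perm (Fin r) → Fin r × Fin r)) + Real.log T2.card := by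
    rw [← Real.log_mul (by exact_mod_cast hC.ne') (by exact_mod_cast hT2pos.ne')]
    apply Real.log_le_log (by exact_mod_cast hTpos)
    exact_mod_cast ht
  obtain ⟨s, hs⟩ := exists_sys n hn T2 (card_pos.1 hT2pos) Γ (by linarith)
  obtain ⟨π, hπ⟩ := exists_order r hr Γ (Real.log n) c α θ s hc hθ0 hθ hα hℓ
  obtain ⟨x0, hx0⟩ := card_pos.1 hT2pos
  have hle : (t π).1.val ≤ (t π).2.val := by
    have := (hty x0 π (mem_filter.1 hx0).1).1
    rwa [(mem_filter.1 hx0).2] at this
  have h1 := hπ (t π).1.val (t π).2 hle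
  have h2 := hD (t π).1.val (t π).2 hle
  have h3 := hs (pre π (t π).1.val) (π (t π).2) (fun x => W π (t π).1.val (t π).2 (x ∘ π))
    (DD d (t π).1.val (t π).2) (by rw [mem_pre]; omega) (fun x => hW1 _ _ _ _)
    (fun x y hxy => hW2 _ _ _ _ _ (fun l hl => hxy (π l) ((mem_pre π _ l).2 hl)))
    (fun x hx => by
      have := (hty x π (mem_filter.1 hx).1).2
      rwa [(mem_filter.1 hx).2] at this)
  linarith

end Pool.Agent.H789Z.Unav
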