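import Pool.Agent.H789Z.Unav.Lower1

set_option autoImplicit false

namespace Pool.Agent.H789Z.Unav

open Finset

theorem card_colourings {n r : ℕ} (x : Fin r → Fin n) (hx : Function.Injective x) :
    Fintype.card (Fin n → Fin r) ≤
      r ^ r * (univ.filter (fun χ : Fin n → Fin r => ∀ i, χ (x i) = i)).card := by
  classical
  let A := univ.filter (fun χ : Fin n → Fin r => ∀ i, χ (x i) = i)
  have h : (univ : Finset (Fin n → Fin r)).card ≤
      ((univ : Finset (Fin r → Fin r)) ×ˢ A).card := by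
    apply card_le_card_of_injOn (fun χ => (χ ∘ x, Function.extend x id χ))
    · intro χ _
      simp only [coe_product, Set.mem_prod, coe_univ, Set.mem_univ, true_and, mem_coe, A,
        mem_filter, mem_univ]
      intro i
      rw [hx.extend_apply]; rfl
    · intro χ _ χ' _ h
      simp only [Prod.mk.injEq] at h
      funext v
      by_cases hv : ∃ i, x i = v
      · obtain ⟨i, rfl⟩ := hv
        exact congrFun h.1 i
      · have := congrFun h.2 v
        rwa [Function.extend_apply' _ _ _ hv, Function.extend_apply' _ _ _ hv] at this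
  rw [card_product, card_univ, card_univ] at h
  simpa [A] using h

theorem exists_partite {n r : ℕ} (hn : 0 < n) (hr : 0 < r) (G : Finset (Finset (Fin n)))
    (hG : ∀ g ∈ G, g.card = r) :
    ∃ (χ : Fin n → Fin r) (T : Finset (Fin r → Fin n)), (∀ x ∈ T, ∀ i, χ (x i) = i) ∧
      (∀ x ∈ T, univ.image x ∈ G) ∧ G.card ≤ r ^ r * T.card := by
  classical
  have hen : ∀ g : Finset (Fin n), ∃ x : Fin r → Fin n, g ∈ G →
      Function.Injective x ∧ univ.image x = g := by
    intro g
    by_cases hg : g ∈ G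
    · refine ⟨g.orderEmbOfFin (hG g hg), fun _ => ⟨(g.orderEmbOfFin (hG g hg)).injective, ?_⟩⟩
      apply coe_injective
      simp
    · exact ⟨fun _ => ⟨0, hn⟩, fun h => absurd h hg⟩
  choose en hen using hen
  let X := G.image en
  have hX : X.card = G.card := by
    apply card_image_of_injOn
    intro g hg g' hg' h
    rw [← (hen g hg).2, ← (hen g' hg').2, h]
  have : Nonempty (Fin r) := ⟨⟨0, hr⟩⟩
  obtain ⟨χ, -, hχ⟩ := exists_max_image (univ : Finset (Fin n → Fin r))
    (fun χ => (X.filter (fun x => ∀ i, χ (x i) = i)).card) univ_nonempty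
  refine ⟨χ, X.filter (fun x => ∀ i, χ (x i) = i), fun x hx => (mem_filter.1 hx).2, ?_, ?_⟩
  · intro x hx
    obtain ⟨g, hg, rfl⟩ := mem_image.1 (mem_filter.1 hx).1
    rw [(hen g hg).2]; exact hg
  · have hM : 0 < Fintype.card (Fin n → Fin r) := Fintype.card_pos
    have h1 : ∑ χ' : Fin n → Fin r, (X.filter (fun x => ∀ i, χ' (x i) = i)).card =
        ∑ x ∈ X, (univ.filter (fun χ' : Fin n → Fin r => ∀ i, χ' (x i) = i)).card := by
      simp only [card_filter]
      exact sum_comm
    have h2 : ∑ χ' : Fin n → Fin r, (X.filter (fun x => ∀ i, χ' (x i) = i)).card ≤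
        Fintype.card (Fin n → Fin r) * (X.filter (fun x => ∀ i, χ (x i) = i)).card := by
      refine (sum_le_sum hχ).trans ?_
      simp
    have h3 : X.card * Fintype.card (Fin n → Fin r) ≤
        r ^ r * ∑ x ∈ X, (univ.filter (fun χ' : Fin n → Fin r => ∀ i, χ' (x i) = i)).card := by
      rw [mul_sum, ← smul_eq_mul, ← sum_const]
      apply sum_le_sum
      intro x hx
      obtain ⟨g, hg, rfl⟩ := mem_image.1 hx
      exact card_colourings _ (hen g hg).1
    rw [← h1] at h3
    have h4 := h3.trans (Nat.mul_le_mul_left _ h2)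
    rw [← hX]
    apply Nat.le_of_mul_le_mul_right _ hM
    calc _ ≤ _ := h4
      _ = _ := by ring

theorem exists_H {n r : ℕ} (hr : 0 < r) (d : Fin r → ℕ) (hd : ∀ l, 0 < d l)
    (hsize : r * ∏ l, d l ≤ n) :
    ∃ H : Finset (Finset (Fin n)), (∀ h ∈ H, h.card = r) ∧ H.card = ∏ l, d l ∧
      ∀ (G : Finset (Finset (Fin n))) (χ : Fin n → Fin r) (T : Finset (Fin r → Fin n))
        (π : Equiv.Perm (Fin r)), (∀ x ∈ T, ∀ i, χ (x i) = i) → (∀ x ∈ T, univ.image x ∈ G) →
        Emb d 0 {y : Fin r → Fin n | y ∘ π.symm ∈ T} →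
        ∃ φ : Fin n ↪ Fin n, ∀ h ∈ H, h.map φ ∈ G := by
  classical
  obtain ⟨ι⟩ : Nonempty ((Fin r × ((l : Fin r) → Fin (d l))) ↪ Fin n) := by
    apply Function.Embedding.nonempty_of_card_le
    simpa using hsize
  let tr : Fin r → ((l : Fin r) → Fin (d l)) → ((l : Fin r) → Fin (d l)) :=
    fun j w l => if l.val ≤ j.val then w l else ⟨0, hd l⟩
  let edge : ((l : Fin r) → Fin (d l)) → Finset (Fin n) :=
    fun w => univ.image (fun j => ι (j, tr j w))
  have htr : ∀ j w, tr j (tr j w) = tr j w := by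
    intro j w
    funext l
    by_cases h : l.val ≤ j.val <;> simp only [tr, h, if_true, if_false]
  refine ⟨univ.image edge, ?_, ?_, ?_⟩
  · intro h hh
    obtain ⟨w, -, rfl⟩ := mem_image.1 hh
    rw [card_image_of_injective]
    · simp
    · intro j j' h
      exact congrArg Prod.fst (ι.injective h)
  · rw [card_image_of_injective]
    · simp
    · intro w w' h
      let j : Fin r := ⟨r - 1, by omega⟩
      have h1 : ι (j, tr j w) ∈ edge w' := by
        rw [← h]; exact mem_image.2 ⟨j, mem_univ _, rfl⟩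
      obtain ⟨j', -, h2⟩ := mem_image.1 h1
      have h3 := ι.injective h2
      simp only [Prod.mk.injEq] at h3
      obtain ⟨rfl, h4⟩ := h3
      funext l
      have h5 := congrFun h4 l
      have h6 : l.val ≤ r - 1 := by have := l.isLt; omega
      simp only [tr, j, h6, if_true] at h5
      exact h5.symm
  · intro G χ T π hχ hT hE
    obtain ⟨Φ, h1, h2⟩ := hE
    have hcol : ∀ w j, χ (Φ w j) = π j := by
      intro w j
      have := hχ _ (h1 w) (π j)
      simpa using this
    let f : {p : Fin r × ((l : Fin r) → Fin (d l)) // tr p.1 p.2 = p.2} → Fin n := fun p => ι p.1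
    let g : {p : Fin r × ((l : Fin r) → Fin (d l)) // tr p.1 p.2 = p.2} → Fin n :=
      fun p => Φ p.1.2 p.1.1
    have hf : Function.Injective f := fun p q h => Subtype.ext (ι.injective h)
    have hg : Function.Injective g := by
      rintro ⟨⟨j, w⟩, hp⟩ ⟨⟨j', w'⟩, hq⟩ h
      simp only [g] at h hp hq
      have hj : j = j' := by
        apply π.injective
        rw [← hcol w j, ← hcol w' j', h]
      subst hj
      have ha := (h2 j (Nat.zero_le _) w w').1 h
      have : tr j w = tr j w' := by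
        funext l
        by_cases hl : l.val ≤ j.val
        · simp only [tr, hl, if_true]; exact ha l (Nat.zero_le _) hl
        · simp only [tr, hl, if_false]
      rw [hp, hq] at this
      subst this
      rfl
    obtain ⟨σ, hσ⟩ := Equiv.Perm.exists_extending_pair f g hf hg
    refine ⟨σ.toEmbedding, ?_⟩
    intro h hh
    obtain ⟨w, -, rfl⟩ := mem_image.1 hh
    have h3 : (edge w).map σ.toEmbedding = univ.image (Φ w ∘ π.symm) := by
      have h4 : ∀ j, σ (ι (j, tr j w)) = Φ w j := by
        intro j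
        have h5 := hσ ⟨(j, tr j w), htr j w⟩
        simp only [f, g] at h5
        rw [h5]
        apply (h2 j (Nat.zero_le _) _ _).2
        intro l _ hl
        simp only [tr, hl, if_true]
      ext v
      simp only [edge, mem_map, mem_image, mem_univ, true_and, Equiv.coe_toEmbedding,
        Function.comp]
      constructor
      · rintro ⟨_, ⟨j, rfl⟩, rfl⟩
        exact ⟨π j, by simp [h4]⟩
      · rintro ⟨i, rfl⟩
        exact ⟨_, ⟨π.symm i, rfl⟩, h4 _⟩
    rw [h3]
    exact hT _ (h1 w)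

/-- The branching numbers. -/
def dfun (r t a k : ℕ) (l : Fin r) : ℕ :=
  (if l.val = 0 then t else 1) * (if l.val = 1 then a else 1) * (if l.val = r - 2 then a else 1) *
    (if l.val = r - 1 then k else 1)

theorem prod_ite_level {r : ℕ} (i j m a : ℕ) (hm : m < r) :
    (∏ l : Fin r, if i ≤ l.val ∧ l.val ≤ j then (if l.val = m then a else 1) else 1) =
      if i ≤ m ∧ m ≤ j then a else 1 := by
  rw [prod_eq_single ⟨m, hm⟩]
  · simp
  · intro l _ hl
    have : l.val ≠ m := fun h => hl (Fin.ext h)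
    simp [this]
  · simp

theorem DD_dfun {r : ℕ} (hr : 2 ≤ r) (t a k i j : ℕ) :
    DD (dfun r t a k) i j = (if i ≤ 0 ∧ 0 ≤ j then t else 1) * (if i ≤ 1 ∧ 1 ≤ j then a else 1) *
      (if i ≤ r - 2 ∧ r - 2 ≤ j then a else 1) * (if i ≤ r - 1 ∧ r - 1 ≤ j then k else 1) := by
  rw [← prod_ite_level (r := r) i j 0 t (by omega), ← prod_ite_level (r := r) i j 1 a (by omega),
    ← prod_ite_level (r := r) i j (r - 2) a (by omega),
    ← prod_ite_level (r := r) i j (r - 1) k (by omega), ← prod_mul_distrib, ← prod_mul_distrib,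
    ← prod_mul_distrib]
  unfold DD dfun
  apply prod_congr rfl
  intro l _
  by_cases h : i ≤ l.val ∧ l.val ≤ j <;> simp [h]

theorem prod_dfun {r : ℕ} (hr : 2 ≤ r) (t a k : ℕ) : ∏ l, dfun r t a k l = t * a * a * k := by
  have h := DD_dfun hr t a k 0 (r - 1)
  rw [if_pos (by omega), if_pos (by omega), if_pos (by omega), if_pos (by omega)] at h
  rw [← h]
  unfold DD
  apply prod_congr rfl
  intro l _
  have := l.isLt
  rw [if_pos (by omega)]

theorem floor_exp (x : ℝ) (hx : 0 ≤ x) :
    0 < ⌊Real.exp x⌋₊ ∧ Real.log (⌊Real.exp x⌋₊ : ℕ) ≤ x ∧ Real.exp x ≤ 2 * (⌊Real.exp x⌋₊ : ℕ) := by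
  have h1 : 1 ≤ Real.exp x := Real.one_le_exp hx
  have h2 : 0 < ⌊Real.exp x⌋₊ := Nat.floor_pos.2 h1
  have h3 : (1 : ℝ) ≤ (⌊Real.exp x⌋₊ : ℕ) := by exact_mod_cast h2
  refine ⟨h2, ?_, ?_⟩
  · rw [Real.log_le_iff_le_exp (by linarith)]
    exact Nat.floor_le (by linarith)
  · have := Nat.lt_floor_add_one (Real.exp x)
    linarith

theorem log_ite_le (P : Prop) [Decidable P] (a : ℕ) (x : ℝ) (h : Real.log a ≤ x) :
    Real.log ((if P then a else 1 : ℕ) : ℝ) ≤ if P then x else 0 := by
  split_ifs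
  · exact h
  · simp

theorem lower (r : ℕ) (hr : 2 ≤ r) : ∃ c K : ℝ, 0 < c ∧ 1 ≤ K ∧ ∀ n e : ℕ, 0 < n →
    K * (n : ℝ) ^ (r - 1) ≤ (e : ℝ) → (e : ℝ) ≤ (n : ℝ) ^ r →
    ∃ H : Finset (Finset (Fin n)), (∀ h ∈ H, h.card = r) ∧
      c * min ((e : ℝ) ^ ((r : ℝ) / ((r : ℝ) - 1)) /
            (n : ℝ) ^ ((r : ℝ) - 1 + 1 / ((r : ℝ) - 1)))
          ((e : ℝ) ^ (1 / (r : ℝ))) ≤ (H.card : ℝ) ∧
      ∀ G : Finset (Finset (Fin n)), (∀ g ∈ G, g.card = r) → G.card = e →
        ∃ φ : Fin n ↪ Fin n, ∀ h ∈ H, h.map φ ∈ G := by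
  have : Nonempty (Fin r) := ⟨⟨0, by omega⟩⟩
  set C0 := Fintype.card (Equiv.Perm (Fin r) → Fin r × Fin r) with hC0
  have hC : 0 < C0 := Fintype.card_pos
  have hC1 : (1 : ℝ) ≤ C0 := by exact_mod_cast hC
  have hr2 : (2 : ℝ) ≤ r := by exact_mod_cast hr
  have hrr : (1 : ℝ) ≤ (r : ℝ) ^ r := one_le_pow₀ (by linarith)
  set K : ℝ := 2 * (r : ℝ) ^ r * C0 with hK
  have hK1 : 1 ≤ K := by nlinarith
  have hlogK : Real.log K = Real.log 2 + r * Real.log r + Real.log C0 := by
    rw [hK, Real.log_mul (by positivity) (by positivity), Real.log_mul (by positivity)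
      (by positivity), Real.log_pow]
  have hl2 : 0 < Real.log 2 := Real.log_pos (by norm_num)
  have hlC : 0 ≤ Real.log C0 := Real.log_nonneg hC1
  have hlK : 0 ≤ Real.log K := Real.log_nonneg hK1
  refine ⟨1 / (16 * K ^ 2), K, by positivity, hK1, ?_⟩
  intro n e hn he1 he2
  have hn0 : (0 : ℝ) < n := by exact_mod_cast hn
  have he0 : (0 : ℝ) < e := lt_of_lt_of_le (by positivity) he1
  set ℓ := Real.log n with hℓ
  set E := Real.log e with hE
  have hE1 : Real.log K + (r - 1) * ℓ ≤ E := by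
    have h := Real.log_le_log (by positivity) he1
    rw [Real.log_mul (by positivity) (by positivity), Real.log_pow,
      Nat.cast_sub (by omega : 1 ≤ r)] at h
    simpa using h
  have hE2 : E ≤ r * ℓ := by
    have h := Real.log_le_log he0 he2
    rwa [Real.log_pow] at h
  set Γ := r * ℓ - E + Real.log K with hΓ
  have hΓ1 : Γ ≤ ℓ := by linarith
  have hΓ2 : Real.log K ≤ Γ := by linarith
  have hΓ0 : 0 ≤ Γ := by linarith
  have hr1 : (0 : ℝ) < r - 1 := by linarith
  have hr0 : (0 : ℝ) < r := by linarith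
  set c := Γ / (r - 1) with hc
  have hc' : (r - 1) * c = Γ := by rw [hc]; field_simp
  have hc0 : 0 ≤ c := by positivity
  set θ := min (ℓ - Γ) (c / r) with hθ
  have hθ0 : 0 ≤ θ := le_min (by linarith) (by positivity)
  have hθ1 : θ ≤ ℓ - Γ := min_le_left _ _
  have hθ2 : θ ≤ c / r := min_le_right _ _
  have hθ3 : r * θ ≤ c := by
    rw [le_div_iff₀ hr0] at hθ2; linarith
  set α := (Γ - c) / 2 with hα
  have hα0 : 0 ≤ α := by
    have : c ≤ Γ := by nlinarith
    rw [hα]; linarith
  obtain ⟨t1, t2, t3⟩ := floor_exp (ℓ - Γ) (by linarith)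
  obtain ⟨a1, a2, a3⟩ := floor_exp α hα0
  obtain ⟨k1, k2, k3⟩ := floor_exp θ hθ0
  set t := ⌊Real.exp (ℓ - Γ)⌋₊
  set a := ⌊Real.exp α⌋₊
  set k := ⌊Real.exp θ⌋₊
  have t0 : (0 : ℝ) < t := by exact_mod_cast t1
  have a0 : (0 : ℝ) < a := by exact_mod_cast a1
  have k0 : (0 : ℝ) < k := by exact_mod_cast k1
  have hd : ∀ l, 0 < dfun r t a k l := by
    intro l
    unfold dfun
    split_ifs <;> positivity
  have hcr : c - c / r = Γ / r := by
    rw [← hc']; field_simp
  have hsize : r * ∏ l, dfun r t a k l ≤ n := by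
    rw [prod_dfun hr]
    have h1 : Real.log ((r : ℝ) * (t * a * a * k)) ≤ ℓ := by
      rw [Real.log_mul (by positivity) (by positivity), Real.log_mul (by positivity)
        (by positivity), Real.log_mul (by positivity) (by positivity), Real.log_mul (by positivity)
        (by positivity)]
      have h2 : Real.log r ≤ Γ / r := by
        rw [le_div_iff₀ hr0]; linarith
      linarith
    have h2 := (Real.log_le_log_iff (by positivity) hn0).1 h1
    exact_mod_cast h2
  obtain ⟨H, hH1, hH2, hH3⟩ := exists_H (n := n) (by omega) (dfun r t a k) hd hsize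
  refine ⟨H, hH1, ?_, ?_⟩
  · rw [hH2, prod_dfun hr]
    push_cast
    have h1 : Real.exp (ℓ - c + θ) ≤ 16 * (t * a * a * k) := by
      have : ℓ - c + θ = (ℓ - Γ) + α + α + θ := by rw [hα]; ring
      rw [this, Real.exp_add, Real.exp_add, Real.exp_add]
      calc _ ≤ (2 * (t : ℝ)) * (2 * (a : ℝ)) * (2 * (a : ℝ)) * (2 * (k : ℝ)) := by gcongr
        _ = _ := by ring
    have hK2 : K ^ 2 = Real.exp (2 * Real.log K) := by
      rw [show (2 : ℝ) * Real.log K = Real.log K + Real.log K by ring, Real.exp_add,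
        Real.exp_log (by positivity)]
      ring
    have h2 : min ((e : ℝ) ^ ((r : ℝ) / ((r : ℝ) - 1)) /
            (n : ℝ) ^ ((r : ℝ) - 1 + 1 / ((r : ℝ) - 1)))
          ((e : ℝ) ^ (1 / (r : ℝ))) ≤ K ^ 2 * Real.exp (ℓ - c + θ) := by
      rw [hK2, ← Real.exp_add]
      rcases min_choice (ℓ - Γ) (c / r) with h | h
      · refine (min_le_left _ _).trans ?_
        rw [Real.rpow_def_of_pos he0, Real.rpow_def_of_pos hn0, ← Real.exp_sub]
        apply Real.exp_le_exp.2
        rw [hθ, h, ← hE, ← hℓ]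
        have h3 : E * (r / (r - 1)) - ℓ * (r - 1 + 1 / (r - 1)) =
            (ℓ - c + (ℓ - Γ)) + Real.log K * (r / (r - 1)) := by
          rw [hc, hΓ]; field_simp; ring
        have h4 : (r : ℝ) / (r - 1) ≤ 2 := by
          rw [div_le_iff₀ hr1]; linarith
        have h5 := mul_le_mul_of_nonneg_left h4 hlK
        linarith
      · refine (min_le_right _ _).trans ?_
        rw [Real.rpow_def_of_pos he0]
        apply Real.exp_le_exp.2
        rw [hθ, h, ← hE]
        have h3 : E * (1 / r) = ℓ - Γ / r + Real.log K * (1 / r) := by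
          rw [hΓ]; field_simp; ring
        have h4 : (1 : ℝ) / r ≤ 2 := by
          rw [div_le_iff₀ hr0]; linarith
        have h5 := mul_le_mul_of_nonneg_left h4 hlK
        linarith
    calc _ ≤ 1 / (16 * K ^ 2) * (K ^ 2 * (16 * (t * a * a * k))) := by
          gcongr
          exact h2.trans (by gcongr)
      _ = _ := by field_simp
  · intro G hG hGe
    obtain ⟨χ, T, hT1, hT2, hT3⟩ := exists_partite hn (by omega : 0 < r) G hG
    rw [hGe] at hT3
    have hepos : 0 < e := by exact_mod_cast he0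
    have hTpos : 0 < T.card := by
      by_contra h
      have : T.card = 0 := by omega
      rw [this] at hT3
      omega
    have hT4 : E ≤ r * Real.log r + Real.log T.card := by
      rw [← Real.log_pow, ← Real.log_mul (by positivity) (by exact_mod_cast hTpos.ne')]
      apply Real.log_le_log he0
      exact_mod_cast hT3
    obtain ⟨π, hπ⟩ := exists_emb hr n hn (dfun r t a k) hd Γ c α θ hc' hθ0 hθ3
      (by rw [hα]; ring) (by linarith) (by
        intro i j hij
        have hj := j.isLt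
        rw [DD_dfun hr]
        push_cast
        have p1 := log_ite_le (i ≤ 0 ∧ 0 ≤ j.val) t _ t2
        have p2 := log_ite_le (i ≤ 1 ∧ 1 ≤ j.val) a _ a2
        have p3 := log_ite_le (i ≤ r - 2 ∧ r - 2 ≤ j.val) a _ a2
        have p4 := log_ite_le (i ≤ r - 1 ∧ r - 1 ≤ j.val) k _ k2
        push_cast at p1 p2 p3 p4
        rw [Real.log_mul (by split_ifs <;> positivity) (by split_ifs <;> positivity),
          Real.log_mul (by split_ifs <;> positivity) (by split_ifs <;> positivity),
          Real.log_mul (by split_ifs <;> positivity) (by split_ifs <;> positivity)]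
        have q1 : (i ≤ 0 ∧ 0 ≤ j.val) ↔ i = 0 := by omega
        have q4 : (i ≤ r - 1 ∧ r - 1 ≤ j.val) ↔ j.val = r - 1 := by omega
        simp only [q1, q4] at p1 p4 ⊢
        unfold wt
        linarith)
      T (card_pos.1 hTpos) (by rw [← hC0]; linarith)
    exact hH3 G χ T π hT1 hT2 hπ

end Pool.Agent.H789Z.Unav
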