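import Pool.Agent.H789Z.Unav.Comb

set_option autoImplicit false

namespace Pool.Agent.H789Z.Unav

open Finset

/-- The set of the first `i` elements in the order `π`. -/
def pre {r : ℕ} (π : Equiv.Perm (Fin r)) (i : ℕ) : Finset (Fin r) :=
  (univ.filter (fun l : Fin r => l.val < i)).image π

theorem mem_pre {r : ℕ} (π : Equiv.Perm (Fin r)) (i : ℕ) (l : Fin r) :
    π l ∈ pre π i ↔ l.val < i := by
  simp [pre]

theorem pre_zero {r : ℕ} (π : Equiv.Perm (Fin r)) : pre π 0 = ∅ := by simp [pre]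

theorem pre_subset {r : ℕ} (π : Equiv.Perm (Fin r)) (i : ℕ) (S : Finset (Fin r))
    (h : ∀ l : Fin r, l.val < i → π l ∈ S) : pre π i ⊆ S := by
  intro x hx
  obtain ⟨l, rfl⟩ := π.surjective x
  exact h l ((mem_pre π i l).1 hx)

/-- The total weight of the levels between `i` and `j`. -/
noncomputable def wt (r : ℕ) (τ α θ : ℝ) (i j : ℕ) : ℝ :=
  (if i = 0 then τ else 0) + (if i ≤ 1 ∧ 1 ≤ j then α else 0) +
    (if i ≤ r - 2 ∧ r - 2 ≤ j then α else 0) + (if j = r - 1 then θ else 0)

theorem exists_perm3 {r : ℕ} (h3 : 3 ≤ r) (u y z : Fin r) (hyu : y ≠ u) (hzu : z ≠ u)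
    (hyz : y ≠ z) : ∃ π : Equiv.Perm (Fin r), π ⟨0, by omega⟩ = u ∧ π ⟨r - 2, by omega⟩ = y ∧
      π ⟨r - 1, by omega⟩ = z := by
  let f : Fin 3 → Fin r := ![⟨0, by omega⟩, ⟨r - 2, by omega⟩, ⟨r - 1, by omega⟩]
  let g : Fin 3 → Fin r := ![u, y, z]
  have hf : Function.Injective f := by
    intro a b hab
    fin_cases a <;> fin_cases b <;> simp [f, Fin.ext_iff] at hab ⊢ <;> omega
  have hg : Function.Injective g := by
    intro a b hab
    fin_cases a <;> fin_cases b <;> simp_all [g, eq_comm]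
  obtain ⟨σ, hσ⟩ := Equiv.Perm.exists_extending_pair f g hf hg
  exact ⟨σ, hσ 0, hσ 1, hσ 2⟩

theorem exists_order (r : ℕ) (h2 : 2 ≤ r) (Γ ℓ c α θ : ℝ) (s : Sys (Fin r) Γ)
    (hc : (r - 1) * c = Γ) (hθ0 : 0 ≤ θ) (hθ : r * θ ≤ c) (hα : 2 * α = Γ - c) (hℓ : Γ + θ ≤ ℓ) :
    ∃ π : Equiv.Perm (Fin r), ∀ (i : ℕ) (j : Fin r), i ≤ j.val →
      s.g (π j) (pre π i) < ℓ - wt r (ℓ - Γ) α θ i j := by
  have hr : Fintype.card (Fin r) = r := Fintype.card_fin r
  have hlt : ∀ (π : Equiv.Perm (Fin r)) (i : ℕ) (j : Fin r), i ≤ j.val →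
      s.g (π j) (pre π i) < Γ := by
    intro π i j hij
    apply s.glt
    rw [mem_pre]; omega
  by_cases hr2 : r = 2
  · subst hr2
    obtain ⟨u, z, hzu, hz⟩ := s.main2 hr
    have hα0 : α = 0 := by push_cast at hc; linarith
    refine ⟨Equiv.swap 1 z, ?_⟩
    intro i j hij
    have h1 := hlt (Equiv.swap 1 z) i j hij
    push_cast at hc hθ
    fin_cases j
    · have hi : i = 0 := by simpa using hij
      subst hi
      simp only [wt, hα0] at h1 ⊢
      norm_num at h1 ⊢
      linarith
    · have hi : i = 0 ∨ i = 1 := by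
        have : i ≤ 1 := by simpa using hij
        omega
      rcases hi with hi | hi
      · subst hi
        simp only [wt, hα0, pre_zero]
        norm_num
        linarith
      · subst hi
        simp only [wt, hα0] at h1 ⊢
        norm_num at h1 ⊢
        linarith
  have h3 : 3 ≤ r := by omega
  have main : ∃ u y z : Fin r, y ≠ u ∧ z ≠ u ∧ y ≠ z ∧
      s.g y ∅ < c ∧ s.g y {u} < c + θ ∧ s.g z ∅ < c - θ ∧ s.g z {u} < c ∧
      (4 ≤ r → (∀ x, x ≠ u → s.g x ∅ < Γ - α ∧ s.g x {u} < Γ - α + θ) ∧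
        s.g y (univ \ {y, z}) < Γ - α + θ ∧ s.g z (univ \ {y, z}) < Γ - α) := by
    by_cases h4 : 4 ≤ r
    · obtain ⟨u, y, z, p1, p2, p3, p4, p5, p6, p7, p8, p9⟩ :=
        s.main4 r hr h4 c θ (Γ - α) hc hθ0 hθ (by linarith)
      exact ⟨u, y, z, p1, p2, p3, p5, p6, p7, p8, fun _ => ⟨p4, p9⟩⟩
    · obtain ⟨u, y, z, p1, p2, p3, p4, p5, p6, p7, p8⟩ := s.core r hr h3 c θ hc hθ0 hθ
      exact ⟨u, y, z, p1, p2, p3, p5, p6, p7, p8, fun h => absurd h h4⟩
  obtain ⟨u, y, z, hyu, hzu, hyz, hy1, hy2, hz1, hz2, h4⟩ := main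
  obtain ⟨π, e0, e1, e2⟩ := exists_perm3 h3 u y z hyu hzu hyz
  refine ⟨π, ?_⟩
  intro i j hij
  have h1 := hlt π i j hij
  have hj := j.isLt
  have hjy : j.val = r - 2 → π j = y := fun h => by rw [← e1]; congr 1; exact Fin.ext h
  have hjz : j.val = r - 1 → π j = z := fun h => by rw [← e2]; congr 1; exact Fin.ext h
  have hju : j.val ≠ 0 → π j ≠ u := fun h he => by
    rw [← e0] at he
    exact h (congrArg Fin.val (π.injective he))
  have hp1 : pre π 1 ⊆ {u} := by
    apply pre_subset
    intro l hl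
    have : l = ⟨0, by omega⟩ := Fin.ext (by simp; omega)
    rw [this, e0]; simp
  have hpB : i ≤ r - 2 → pre π i ⊆ univ \ {y, z} := by
    intro hi
    apply pre_subset
    intro l hl
    simp only [mem_sdiff, mem_univ, mem_insert, mem_singleton, true_and, not_or]
    constructor
    · intro he
      rw [← e1] at he
      have := congrArg Fin.val (π.injective he)
      simp at this; omega
    · intro he
      rw [← e2] at he
      have := congrArg Fin.val (π.injective he)
      simp at this; omega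
  unfold wt
  by_cases hi0 : i = 0
  · subst hi0
    rw [pre_zero] at h1 ⊢
    by_cases c0 : j.val = 0
    · rw [if_pos rfl, if_neg (by omega), if_neg (by omega), if_neg (by omega)]
      linarith
    by_cases c1 : j.val = r - 1
    · rw [if_pos rfl, if_pos (by omega), if_pos (by omega), if_pos c1, hjz c1]
      linarith
    by_cases c2 : j.val = r - 2
    · rw [if_pos rfl, if_pos (by omega), if_pos (by omega), if_neg c1, hjy c2]
      linarith
    · rw [if_pos rfl, if_pos (by omega), if_neg (by omega), if_neg c1]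
      have := ((h4 (by omega)).1 (π j) (hju c0)).1
      linarith
  by_cases hi1 : i = 1
  · subst hi1
    have hm := s.gmono (π j) _ _ hp1
    by_cases c1 : j.val = r - 1
    · rw [if_neg hi0, if_pos (by omega), if_pos (by omega), if_pos c1]
      rw [hjz c1] at hm ⊢
      linarith
    by_cases c2 : j.val = r - 2
    · rw [if_neg hi0, if_pos (by omega), if_pos (by omega), if_neg c1]
      rw [hjy c2] at hm ⊢
      linarith
    · rw [if_neg hi0, if_pos (by omega), if_neg (by omega), if_neg c1]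
      have := ((h4 (by omega)).1 (π j) (hju (by omega))).2
      linarith
  by_cases hi2 : i ≤ r - 2
  · have hm := s.gmono (π j) _ _ (hpB hi2)
    by_cases c1 : j.val = r - 1
    · rw [if_neg hi0, if_neg (by omega), if_pos (by omega), if_pos c1]
      rw [hjz c1] at hm ⊢
      have := (h4 (by omega)).2.2
      linarith
    by_cases c2 : j.val = r - 2
    · rw [if_neg hi0, if_neg (by omega), if_pos (by omega), if_neg c1]
      rw [hjy c2] at hm ⊢
      have := (h4 (by omega)).2.1
      linarith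
    · rw [if_neg hi0, if_neg (by omega), if_neg (by omega), if_neg c1]
      linarith
  · rw [if_neg hi0, if_neg (by omega), if_neg (by omega), if_pos (by omega)]
    linarith

end Pool.Agent.H789Z.Unav
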