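import Mathlib

set_option autoImplicit false

namespace Pool.Agent.H789Z.Unav

open Finset

/-- `H` is contained in every `r`-graph on `Fin n` with `e` edges. -/
def Un {n : ℕ} (r e : ℕ) (H : Finset (Finset (Fin n))) : Prop :=
  ∀ G : Finset (Finset (Fin n)), (∀ g ∈ G, g.card = r) → G.card = e →
    ∃ φ : Fin n ↪ Fin n, ∀ h ∈ H, h.map φ ∈ G

theorem Un.host {n r e : ℕ} {H : Finset (Finset (Fin n))} (hH : Un r e H)
    (B : Finset (Finset (Fin n))) (hB : ∀ g ∈ B, g.card = r) (he : e ≤ B.card) :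
    ∃ φ : Fin n ↪ Fin n, ∀ h ∈ H, h.map φ ∈ B := by
  obtain ⟨G, hG1, hG2⟩ := exists_subset_card_eq he
  obtain ⟨φ, hφ⟩ := hH G (fun g hg => hB g (hG1 hg)) hG2
  exact ⟨φ, fun h hh => hG1 (hφ h hh)⟩

theorem desc_ineq (e N : ℕ) (h : e ≤ N) (s : ℕ) :
    e.descFactorial s * N ^ s ≤ N.descFactorial s * e ^ s := by
  induction s with
  | zero => simp
  | succ s ih =>
    rw [Nat.descFactorial_succ, Nat.descFactorial_succ, pow_succ, pow_succ]
    have h1 : (e - s) * N ≤ (N - s) * e := by
      rw [Nat.sub_mul, Nat.sub_mul, mul_comm N e]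
      exact Nat.sub_le_sub_left (Nat.mul_le_mul_left _ h) _
    calc (e - s) * e.descFactorial s * (N ^ s * N)
        = (e.descFactorial s * N ^ s) * ((e - s) * N) := by ring
      _ ≤ (N.descFactorial s * e ^ s) * ((N - s) * e) := Nat.mul_le_mul ih h1
      _ = _ := by ring

theorem choose_ineq (e N s : ℕ) (h : e ≤ N) (hs : s ≤ e) :
    (N - s).choose (e - s) * N ^ s ≤ N.choose e * e ^ s := by
  have h1 : N.choose e * e.choose s = N.choose s * (N - s).choose (e - s) := Nat.choose_mul hs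
  have h2 := desc_ineq e N h s
  rw [Nat.descFactorial_eq_factorial_mul_choose, Nat.descFactorial_eq_factorial_mul_choose] at h2
  have h3 : e.choose s * N ^ s ≤ N.choose s * e ^ s := by
    apply Nat.le_of_mul_le_mul_left _ (Nat.factorial_pos s)
    calc _ = s.factorial * e.choose s * N ^ s := by ring
      _ ≤ s.factorial * N.choose s * e ^ s := h2
      _ = _ := by ring
  have h4 : 0 < N.choose s := Nat.choose_pos (hs.trans h)
  apply Nat.le_of_mul_le_mul_left _ h4
  calc N.choose s * ((N - s).choose (e - s) * N ^ s)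
      = (N.choose s * (N - s).choose (e - s)) * N ^ s := by ring
    _ = N.choose e * (e.choose s * N ^ s) := by rw [← h1]; ring
    _ ≤ N.choose e * (N.choose s * e ^ s) := Nat.mul_le_mul_left _ h3
    _ = _ := by ring

theorem Un.count {n r e : ℕ} {H : Finset (Finset (Fin n))} (hH : Un r e H)
    (he : e ≤ n.choose r) (H' : Finset (Finset (Fin n))) (hH' : H' ⊆ H) (U : Finset (Fin n))
    (hU : ∀ h ∈ H', h ⊆ U) : (n.choose r) ^ H'.card ≤ n ^ U.card * e ^ H'.card := by
  classical
  let E : Finset (Finset (Fin n)) := powersetCard r univ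
  have hE : E.card = n.choose r := by simp [E]
  let 𝒢 := powersetCard e E
  have h𝒢 : 𝒢.card = (n.choose r).choose e := by simp [𝒢, hE]
  have hex : ∀ G : Finset (Finset (Fin n)), ∃ φ : Fin n ↪ Fin n, G ∈ 𝒢 → ∀ h ∈ H, h.map φ ∈ G := by
    intro G
    by_cases hG : G ∈ 𝒢
    · obtain ⟨h1, h2⟩ := mem_powersetCard.1 hG
      obtain ⟨φ, hφ⟩ := hH G (fun g hg => (mem_powersetCard.1 (h1 hg)).2) h2
      exact ⟨φ, fun _ => hφ⟩
    · exact ⟨Function.Embedding.refl _, fun h => absurd h hG⟩
  choose φ hφ using hex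
  have hA : ∀ G, (H'.image (fun h => h.map (φ G))).card = H'.card := by
    intro G
    exact card_image_of_injective _ (map_injective _)
  have hAG : ∀ G ∈ 𝒢, H'.image (fun h => h.map (φ G)) ⊆ G := by
    intro G hG x hx
    obtain ⟨h, hh, rfl⟩ := mem_image.1 hx
    exact hφ G hG h (hH' hh)
  have hpos : 0 < 𝒢.card := by rw [h𝒢]; exact Nat.choose_pos he
  have hs : H'.card ≤ e := by
    obtain ⟨G, hG⟩ := card_pos.1 hpos
    rw [← hA G, ← (mem_powersetCard.1 hG).2]
    exact card_le_card (hAG G hG)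
  have h1 : 𝒢.card ≤ (n.choose r - H'.card).choose (e - H'.card) *
      (univ : Finset (U → Fin n)).card := by
    apply card_le_mul_card_image_of_maps_to (f := fun G (u : U) => φ G u.1)
    · intro G _; exact mem_univ _
    · intro ψ _
      rcases (𝒢.filter (fun G => (fun (u : U) => φ G u.1) = ψ)).eq_empty_or_nonempty with h | h
      · rw [h]; simp
      obtain ⟨G0, hG0⟩ := h
      obtain ⟨hG01, hG02⟩ := mem_filter.1 hG0
      let A := H'.image (fun h => h.map (φ G0))
      have hAE : A ⊆ E := (hAG G0 hG01).trans (mem_powersetCard.1 hG01).1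
      have hsub : ∀ G ∈ 𝒢.filter (fun G => (fun (u : U) => φ G u.1) = ψ), A ⊆ G := by
        intro G hG x hx
        obtain ⟨hG1, hG2⟩ := mem_filter.1 hG
        obtain ⟨h, hh, rfl⟩ := mem_image.1 hx
        have h2 : h.map (φ G0) = h.map (φ G) := by
          rw [map_eq_image, map_eq_image]
          apply image_congr
          intro v hv
          have := congrFun (hG02.trans hG2.symm) ⟨v, hU h hh hv⟩
          exact this
        rw [h2]
        exact hφ G hG1 h (hH' hh)
      calc _ ≤ (powersetCard (e - H'.card) (E \ A)).card := by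
            apply card_le_card_of_injOn (fun G => G \ A)
            · intro G hG
              have hG' := mem_coe.1 hG
              obtain ⟨hG1, -⟩ := mem_filter.1 hG'
              apply mem_coe.2
              apply mem_powersetCard.2
              refine ⟨sdiff_subset_sdiff (mem_powersetCard.1 hG1).1 (Subset.refl _), ?_⟩
              rw [card_sdiff_of_subset (hsub G hG'), (mem_powersetCard.1 hG1).2, hA]
            · intro G hG G' hG' h
              have h1 := sdiff_union_of_subset (hsub G (mem_coe.1 hG))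
              have h2 := sdiff_union_of_subset (hsub G' (mem_coe.1 hG'))
              simp only at h
              rw [← h1, ← h2, h]
        _ = _ := by rw [card_powersetCard, card_sdiff_of_subset hAE, hE, hA]
  have h2 : (univ : Finset (U → Fin n)).card = n ^ U.card := by simp
  rw [h2, h𝒢] at h1
  have h3 := choose_ineq e (n.choose r) H'.card he hs
  have h4 : 0 < (n.choose r).choose e := Nat.choose_pos he
  apply Nat.le_of_mul_le_mul_left _ h4
  calc (n.choose r).choose e * n.choose r ^ H'.card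
      ≤ ((n.choose r - H'.card).choose (e - H'.card) * n ^ U.card) * n.choose r ^ H'.card :=
        Nat.mul_le_mul_right _ h1
    _ = n ^ U.card * ((n.choose r - H'.card).choose (e - H'.card) * n.choose r ^ H'.card) := by
        ring
    _ ≤ n ^ U.card * ((n.choose r).choose e * e ^ H'.card) := Nat.mul_le_mul_left _ h3
    _ = _ := by ring

theorem choose_lb (m r : ℕ) (h : 2 * r ≤ m) :
    (m : ℝ) ^ r ≤ 2 ^ r * r.factorial * m.choose r := by
  have h1 : ((m + 1 - r : ℕ) ^ r : ℝ) / r.factorial ≤ m.choose r := Nat.pow_le_choose r m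
  have h2 : (0 : ℝ) < r.factorial := by exact_mod_cast Nat.factorial_pos r
  rw [div_le_iff₀ h2] at h1
  have h3 : (m : ℝ) ≤ 2 * ((m + 1 - r : ℕ) : ℝ) := by
    have : m ≤ 2 * (m + 1 - r) := by omega
    exact_mod_cast this
  calc (m : ℝ) ^ r ≤ (2 * ((m + 1 - r : ℕ) : ℝ)) ^ r := by gcongr
    _ = 2 ^ r * ((m + 1 - r : ℕ) : ℝ) ^ r := mul_pow _ _ _
    _ ≤ 2 ^ r * (m.choose r * r.factorial) := by gcongr
    _ = _ := by ring

theorem card_preimage_le {n : ℕ} (φ : Fin n ↪ Fin n) (S : Finset (Fin n)) :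
    (univ.filter (fun v => φ v ∈ S)).card ≤ S.card := by
  apply card_le_card_of_injOn φ
  · intro v hv
    exact (mem_filter.1 (mem_coe.1 hv)).2
  · exact φ.injective.injOn

theorem Un.small_support {n r e : ℕ} {H : Finset (Finset (Fin n))} (hH : Un r e H) (M : ℕ)
    (hM : e ≤ M.choose r) : ∃ U : Finset (Fin n), U.card ≤ M ∧ ∀ h ∈ H, h ⊆ U := by
  by_cases hn : n ≤ M
  · exact ⟨univ, by simpa using hn, fun h _ => subset_univ h⟩
  obtain ⟨S, -, hS⟩ := exists_subset_card_eq (s := (univ : Finset (Fin n))) (n := M)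
    (by simp; omega)
  obtain ⟨φ, hφ⟩ := hH.host (powersetCard r S) (fun g hg => (mem_powersetCard.1 hg).2)
    (by rw [card_powersetCard, hS]; exact hM)
  refine ⟨univ.filter (fun v => φ v ∈ S), hS ▸ card_preimage_le φ S, ?_⟩
  intro h hh v hv
  exact mem_filter.2 ⟨mem_univ _, (mem_powersetCard.1 (hφ h hh)).1 (mem_map_of_mem φ hv)⟩

theorem Un.small_cover {n r e : ℕ} (hr : 1 ≤ r) {H : Finset (Finset (Fin n))} (hH : Un r e H)
    (hHr : ∀ h ∈ H, h.card = r) (t : ℕ) (ht : 2 * t ≤ n → e ≤ t * (n - t).choose (r - 1)) :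
    ∃ U : Finset (Fin n), U.card ≤ 2 * t ∧ ∀ h ∈ H, ∃ v ∈ U, v ∈ h := by
  classical
  by_cases hn : 2 * t ≤ n
  swap
  · refine ⟨univ, by simp; omega, ?_⟩
    intro h hh
    obtain ⟨v, hv⟩ : h.Nonempty := card_pos.1 (by rw [hHr h hh]; omega)
    exact ⟨v, mem_univ _, hv⟩
  obtain ⟨S, -, hS⟩ := exists_subset_card_eq (s := (univ : Finset (Fin n))) (n := t)
    (by simp; omega)
  let B := (powersetCard r (univ : Finset (Fin n))).filter (fun g => ∃ v ∈ S, v ∈ g)
  have hB : e ≤ B.card := by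
    refine (ht hn).trans ?_
    have h1 : (S ×ˢ powersetCard (r - 1) (univ \ S)).card = t * (n - t).choose (r - 1) := by
      rw [card_product, card_powersetCard, card_sdiff_of_subset (subset_univ _), hS]
      simp
    rw [← h1]
    apply card_le_card_of_injOn (fun p => insert p.1 p.2)
    · rintro ⟨s, A⟩ hp
      obtain ⟨hs, hA⟩ := mem_product.1 (mem_coe.1 hp)
      obtain ⟨hA1, hA2⟩ := mem_powersetCard.1 hA
      have hsA : s ∉ A := fun h => (mem_sdiff.1 (hA1 h)).2 hs
      apply mem_coe.2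
      refine mem_filter.2 ⟨mem_powersetCard.2 ⟨subset_univ _, ?_⟩, s, hs, mem_insert_self _ _⟩
      simp only at hA2 ⊢
      rw [card_insert_of_notMem hsA, hA2]
      omega
    · rintro ⟨s, A⟩ hp ⟨s', A'⟩ hp' h
      obtain ⟨hs, hA⟩ := mem_product.1 (mem_coe.1 hp)
      obtain ⟨hA1, -⟩ := mem_powersetCard.1 hA
      obtain ⟨hs', hA'⟩ := mem_product.1 (mem_coe.1 hp')
      obtain ⟨hA1', -⟩ := mem_powersetCard.1 hA'
      simp only at h hs hs' hA1 hA1'
      have hsA : s ∉ A := fun h => (mem_sdiff.1 (hA1 h)).2 hs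
      have hsA' : s ∉ A' := fun h => (mem_sdiff.1 (hA1' h)).2 hs
      have h1 : s = s' := by
        have : s ∈ insert s' A' := by rw [← h]; exact mem_insert_self _ _
        exact (mem_insert.1 this).resolve_right hsA'
      subst h1
      have h2 : A = A' := by
        rw [← erase_insert hsA, ← erase_insert hsA', h]
      rw [h2]
  obtain ⟨φ, hφ⟩ := hH.host B (fun g hg => (mem_powersetCard.1 (mem_filter.1 hg).1).2) hB
  refine ⟨univ.filter (fun v => φ v ∈ S), ?_, ?_⟩
  · have := card_preimage_le φ S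
    omega
  · intro h hh
    obtain ⟨v, hv1, hv2⟩ := (mem_filter.1 (hφ h hh)).2
    obtain ⟨u, hu, rfl⟩ := mem_map.1 hv2
    exact ⟨u, mem_filter.2 ⟨mem_univ _, hv1⟩, hu⟩

theorem Un.small_link {n r e : ℕ} (hr : 1 ≤ r) {H : Finset (Finset (Fin n))} (hH : Un r e H)
    (m : ℕ) (hm : m ≤ n → e ≤ (n / m) * m.choose r) (v : Fin n) :
    ∃ U : Finset (Fin n), U.card ≤ m ∧ ∀ h ∈ H, v ∈ h → h ⊆ U := by
  classical
  by_cases hn : m ≤ n
  swap
  · exact ⟨univ, by simp; omega, fun h _ _ => subset_univ h⟩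
  obtain ⟨ι⟩ : Nonempty ((Fin (n / m) × Fin m) ↪ Fin n) := by
    apply Function.Embedding.nonempty_of_card_le
    simpa using Nat.div_mul_le_self n m
  let blk : Fin (n / m) → Finset (Fin n) := fun b => univ.image (fun x => ι (b, x))
  have hblk : ∀ b, (blk b).card = m := by
    intro b
    rw [card_image_of_injective]
    · simp
    · intro x y h
      exact congrArg Prod.snd (ι.injective h)
  have huniq : ∀ b b' w, w ∈ blk b → w ∈ blk b' → b = b' := by
    intro b b' w h h'
    obtain ⟨x, -, rfl⟩ := mem_image.1 h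
    obtain ⟨y, -, hy⟩ := mem_image.1 h'
    exact (congrArg Prod.fst (ι.injective hy)).symm
  let B := univ.biUnion (fun b => powersetCard r (blk b))
  have hB : e ≤ B.card := by
    refine (hm hn).trans (le_of_eq ?_)
    rw [card_biUnion]
    · simp [hblk]
    · intro b _ b' _ hbb
      apply disjoint_left.2
      intro g hg hg'
      obtain ⟨h1, h2⟩ := mem_powersetCard.1 hg
      obtain ⟨w, hw⟩ : g.Nonempty := card_pos.1 (by omega)
      exact hbb (huniq b b' w (h1 hw) ((mem_powersetCard.1 hg').1 hw))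
  obtain ⟨φ, hφ⟩ := hH.host B (fun g hg => by
    obtain ⟨b, -, hb⟩ := mem_biUnion.1 hg
    exact (mem_powersetCard.1 hb).2) hB
  by_cases hv : ∃ b, φ v ∈ blk b
  · obtain ⟨b, hb⟩ := hv
    refine ⟨univ.filter (fun u => φ u ∈ blk b), hblk b ▸ card_preimage_le φ _, ?_⟩
    intro h hh hvh u hu
    obtain ⟨b', -, hb'⟩ := mem_biUnion.1 (hφ h hh)
    have h1 := (mem_powersetCard.1 hb').1
    have h2 := huniq b b' _ hb (h1 (mem_map_of_mem φ hvh))
    rw [h2]
    exact mem_filter.2 ⟨mem_univ _, h1 (mem_map_of_mem φ hu)⟩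
  · refine ⟨∅, by simp, ?_⟩
    intro h hh hvh
    obtain ⟨b', -, hb'⟩ := mem_biUnion.1 (hφ h hh)
    exact absurd ⟨b', (mem_powersetCard.1 hb').1 (mem_map_of_mem φ hvh)⟩ hv

end Pool.Agent.H789Z.Unav
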