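import Pool.Agent.H789Z.Unav.Upper

set_option autoImplicit false

namespace Pool.Agent.H789Z.Unav

open Finset

theorem ceil_le_mul (x y c : ℝ) (hy : 1 ≤ y) (hc : 0 ≤ c) (h : x = c * y) :
    (⌈x⌉₊ : ℝ) ≤ (c + 1) * y := by
  have h0 : 0 ≤ x := by rw [h]; positivity
  have := Nat.ceil_lt_add_one h0
  linarith

theorem upper (r : ℕ) (hr : 2 ≤ r) (ε : ℝ) (hε : 0 < ε) : ∃ C : ℝ, 0 < C ∧ ∃ N : ℕ, ∀ n e : ℕ,
    N ≤ n → (n : ℝ) ^ (r - 1) ≤ (e : ℝ) → (e : ℝ) ≤ (n : ℝ) ^ ((r : ℝ) - ε) →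
    ∀ H : Finset (Finset (Fin n)), (∀ h ∈ H, h.card = r) → Un r e H →
      (H.card : ℝ) ≤ C * min ((e : ℝ) ^ ((r : ℝ) / ((r : ℝ) - 1)) /
            (n : ℝ) ^ ((r : ℝ) - 1 + 1 / ((r : ℝ) - 1)))
          ((e : ℝ) ^ (1 / (r : ℝ))) := by
  classical
  have hr2 : (2 : ℝ) ≤ r := by exact_mod_cast hr
  have hr1 : (0 : ℝ) < r - 1 := by linarith
  have hr0 : (0 : ℝ) < r := by linarith
  set B : ℝ := 2 ^ r * r.factorial with hB
  have hfac : (1 : ℝ) ≤ r.factorial := by exact_mod_cast Nat.factorial_pos r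
  have h2r : (1 : ℝ) ≤ 2 ^ r := one_le_pow₀ (by norm_num)
  have hB1 : 1 ≤ B := by rw [hB]; nlinarith
  have hlB : 0 ≤ Real.log B := Real.log_nonneg hB1
  set C1 : ℝ := (2 / ε) * (2 * r * B + 1) with hC1
  set C2 : ℝ := 2 * (2 ^ r * B + 1) * ((2 / ε) * (4 * r * B + 1)) with hC2
  have hC10 : 0 < C1 := by positivity
  have hC20 : 0 < C2 := by positivity
  refine ⟨C1 + C2, by positivity, max (4 * r) ⌈Real.exp (2 * Real.log B / ε)⌉₊, ?_⟩
  intro n e hn he1 he2 H hHr hH
  have hn4 : 4 * r ≤ n := le_of_max_le_left hn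
  have hnE : Real.exp (2 * Real.log B / ε) ≤ n := Nat.ceil_le.1 (le_of_max_le_right hn)
  have hn1 : (1 : ℝ) < n := by
    have : 1 < n := by omega
    exact_mod_cast this
  have hn0 : (0 : ℝ) < n := by linarith
  have hnr : (n : ℝ) ≤ (n : ℝ) ^ (r - 1) := le_self_pow₀ hn1.le (by omega)
  have hen : (n : ℝ) ≤ e := hnr.trans he1
  have he0 : (0 : ℝ) < e := by linarith
  set ℓ := Real.log n with hℓ
  set E := Real.log e with hE
  have hℓ0 : 0 < ℓ := Real.log_pos hn1
  have hℓB : 2 * Real.log B ≤ ε * ℓ := by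
    have h := Real.log_le_log (Real.exp_pos _) hnE
    rw [Real.log_exp, div_le_iff₀ hε] at h
    linarith
  have hE2 : E ≤ (r - ε) * ℓ := by
    have h := Real.log_le_log he0 he2
    rwa [Real.log_rpow hn0] at h
  have hch := choose_lb n r (by omega)
  have hchpos : (0 : ℝ) < n.choose r := by
    exact_mod_cast Nat.choose_pos (by omega : r ≤ n)
  have hlch : r * ℓ ≤ Real.log B + Real.log (n.choose r) := by
    have h := Real.log_le_log (by positivity) hch
    rwa [Real.log_pow, ← hB, Real.log_mul (by positivity) hchpos.ne'] at h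
  have heN : e ≤ n.choose r := by
    have h1 : E ≤ Real.log (n.choose r) := by nlinarith
    have h2 := (Real.log_le_log_iff he0 hchpos).1 h1
    exact_mod_cast h2
  have dens : ∀ H' ⊆ H, ∀ U : Finset (Fin n), (∀ h ∈ H', h ⊆ U) →
      (H'.card : ℝ) ≤ (2 / ε) * U.card := by
    intro H' hH' U hU
    have h1 := hH.count heN H' hH' U hU
    have h2 : ((n.choose r : ℕ) : ℝ) ^ H'.card ≤ (n : ℝ) ^ U.card * (e : ℝ) ^ H'.card := by
      exact_mod_cast h1
    have h3 := Real.log_le_log (by positivity) h2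
    rw [Real.log_mul (by positivity) (by positivity), Real.log_pow, Real.log_pow,
      Real.log_pow, ← hℓ, ← hE] at h3
    have h4 : ε * ℓ / 2 ≤ Real.log (n.choose r) - E := by nlinarith
    have h5 : (H'.card : ℝ) * (ε * ℓ / 2) ≤ U.card * ℓ := by
      have := mul_le_mul_of_nonneg_left h4 (Nat.cast_nonneg (α := ℝ) H'.card)
      linarith
    have h6 : (H'.card : ℝ) * (ε / 2) ≤ U.card := by
      apply le_of_mul_le_mul_right _ hℓ0
      linarith
    rw [div_mul_eq_mul_div, le_div_iff₀ hε]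
    linarith
  -- the bound by `e ^ (1 / r)`
  have hb : (H.card : ℝ) ≤ C1 * (e : ℝ) ^ (1 / (r : ℝ)) := by
    set y := (e : ℝ) ^ (1 / (r : ℝ)) with hy
    have hy1 : 1 ≤ y := Real.one_le_rpow (by linarith) (by positivity)
    have hyr : y ^ r = e := by
      rw [hy, one_div]; exact Real.rpow_inv_natCast_pow he0.le (by omega)
    set M := ⌈2 * r * B * y⌉₊ with hM
    have hM1 : 2 * r * B * y ≤ M := Nat.le_ceil _
    have hM2 : (M : ℝ) ≤ (2 * r * B + 1) * y := ceil_le_mul _ y _ hy1 (by positivity) rfl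
    have hBy : 1 ≤ B * y := by nlinarith
    have hM3 : 2 * r ≤ M := by
      have : (2 * r : ℝ) ≤ M := by nlinarith
      exact_mod_cast this
    have hM4 := choose_lb M r hM3
    have hM5 : B * e ≤ (M : ℝ) ^ r := by
      have h1 : B * y ≤ M := by nlinarith
      calc B * e ≤ B ^ r * y ^ r := by
            rw [hyr]; gcongr; exact le_self_pow₀ hB1 (by omega)
        _ = (B * y) ^ r := (mul_pow _ _ _).symm
        _ ≤ _ := by gcongr
    have hM6 : e ≤ M.choose r := by
      have : (e : ℝ) ≤ M.choose r := le_of_mul_le_mul_left (hM5.trans hM4) (by positivity)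
      exact_mod_cast this
    obtain ⟨U, hU1, hU2⟩ := hH.small_support M hM6
    have h1 := dens H (Subset.refl _) U hU2
    have h2 : (U.card : ℝ) ≤ M := by exact_mod_cast hU1
    calc (H.card : ℝ) ≤ (2 / ε) * U.card := h1
      _ ≤ (2 / ε) * ((2 * r * B + 1) * y) := by gcongr; exact h2.trans hM2
      _ = _ := by rw [hC1]; ring
  -- the other bound
  have ha : (H.card : ℝ) ≤ C2 * ((e : ℝ) ^ ((r : ℝ) / ((r : ℝ) - 1)) /
      (n : ℝ) ^ ((r : ℝ) - 1 + 1 / ((r : ℝ) - 1))) := by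
    set x := (e : ℝ) / (n : ℝ) ^ (r - 1) with hx
    have hx1 : 1 ≤ x := by rw [hx, le_div_iff₀ (by positivity)]; linarith
    set y := ((e : ℝ) / n) ^ (1 / ((r : ℝ) - 1)) with hy
    have hen1 : 1 ≤ (e : ℝ) / n := by rw [le_div_iff₀ hn0]; linarith
    have hy1 : 1 ≤ y := Real.one_le_rpow hen1 (by positivity)
    have hcast : ((r - 1 : ℕ) : ℝ) = (r : ℝ) - 1 := by
      rw [Nat.cast_sub (by omega)]; simp
    have hyr : y ^ (r - 1) = e / n := by
      rw [hy, one_div, ← hcast]; exact Real.rpow_inv_natCast_pow (by positivity) (by omega)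
    have hxy : (e : ℝ) ^ ((r : ℝ) / ((r : ℝ) - 1)) /
        (n : ℝ) ^ ((r : ℝ) - 1 + 1 / ((r : ℝ) - 1)) = x * y := by
      have h1 : (r : ℝ) / (r - 1) = 1 + 1 / (r - 1) := by field_simp; ring
      rw [h1, Real.rpow_add he0, Real.rpow_add hn0, Real.rpow_one, hx, hy,
        Real.div_rpow he0.le hn0.le, ← hcast, Real.rpow_natCast]
      field_simp
    rw [hxy]
    set t := ⌈2 ^ r * B * x⌉₊ with ht
    have ht1 : 2 ^ r * B * x ≤ t := Nat.le_ceil _
    have ht2 : (t : ℝ) ≤ (2 ^ r * B + 1) * x := ceil_le_mul _ x _ hx1 (by positivity) rfl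
    set m := ⌈4 * r * B * y⌉₊ with hm
    have hm1 : 4 * r * B * y ≤ m := Nat.le_ceil _
    have hm2 : (m : ℝ) ≤ (4 * r * B + 1) * y := ceil_le_mul _ y _ hy1 (by positivity) rfl
    have hBy : 1 ≤ B * y := by nlinarith
    have hm3 : 2 * r ≤ m := by
      have : (2 * r : ℝ) ≤ m := by nlinarith
      exact_mod_cast this
    have hm0 : (0 : ℝ) < m := by
      have : 0 < m := by omega
      exact_mod_cast this
    obtain ⟨Cv, hC1, hC2'⟩ := hH.small_cover (by omega) hHr t (by
      intro h2t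
      have h1 := choose_lb (n - t) (r - 1) (by omega)
      have h2 : (n : ℝ) ≤ 2 * ((n - t : ℕ) : ℝ) := by
        have : n ≤ 2 * (n - t) := by omega
        exact_mod_cast this
      have h3 : (2 : ℝ) ^ (r - 1) ≤ 2 ^ r := pow_le_pow_right₀ (by norm_num) (by omega)
      have h4 : ((r - 1).factorial : ℝ) ≤ r.factorial := by
        exact_mod_cast Nat.factorial_le (by omega)
      have h5 : (n : ℝ) ^ (r - 1) ≤ 2 ^ r * B * ((n - t).choose (r - 1) : ℕ) := by
        calc (n : ℝ) ^ (r - 1) ≤ (2 * ((n - t : ℕ) : ℝ)) ^ (r - 1) := by gcongr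
          _ = 2 ^ (r - 1) * ((n - t : ℕ) : ℝ) ^ (r - 1) := mul_pow _ _ _
          _ ≤ 2 ^ r * (2 ^ r * r.factorial * ((n - t).choose (r - 1) : ℕ)) := by
            gcongr
            exact h1.trans (by gcongr)
          _ = _ := by rw [hB]; ring
      have h6 : (e : ℝ) = x * (n : ℝ) ^ (r - 1) := by rw [hx]; field_simp
      have h7 : (e : ℝ) ≤ t * ((n - t).choose (r - 1) : ℕ) := by
        calc (e : ℝ) = x * (n : ℝ) ^ (r - 1) := h6
          _ ≤ x * (2 ^ r * B * ((n - t).choose (r - 1) : ℕ)) := by gcongr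
          _ = (2 ^ r * B * x) * ((n - t).choose (r - 1) : ℕ) := by ring
          _ ≤ _ := by gcongr
      exact_mod_cast h7)
    have hlink : ∀ v : Fin n, ((H.filter (fun h => v ∈ h)).card : ℝ) ≤ (2 / ε) * m := by
      intro v
      obtain ⟨U, hU1, hU2⟩ := hH.small_link (by omega) m (by
        intro hmn
        have h1 := choose_lb m r hm3
        have h2 : (n : ℝ) ≤ 2 * ((n / m : ℕ) : ℝ) * m := by
          have hmp : 0 < m := by omega
          have h3 := Nat.div_add_mod n m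
          have h4 := Nat.mod_lt n hmp
          have h5 : 1 ≤ n / m := (Nat.le_div_iff_mul_le hmp).2 (by omega)
          have h6 : m ≤ m * (n / m) := Nat.le_mul_of_pos_right _ h5
          have : n ≤ 2 * (n / m) * m := by nlinarith
          exact_mod_cast this
        have h3 : 2 * B * (e / n) ≤ (m : ℝ) ^ (r - 1) := by
          have h4 : 2 * B * y ≤ m := by nlinarith
          calc 2 * B * (e / n) ≤ (2 * B) ^ (r - 1) * y ^ (r - 1) := by
                rw [hyr]; gcongr; exact le_self_pow₀ (by linarith) (by omega)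
            _ = (2 * B * y) ^ (r - 1) := (mul_pow _ _ _).symm
            _ ≤ _ := by gcongr
        have h4 : (m : ℝ) ^ r = (m : ℝ) ^ (r - 1) * m := by
          rw [← pow_succ]; congr 1; omega
        have h5 : 2 * B * e ≤ 2 * B * (((n / m : ℕ) : ℝ) * m.choose r) := by
          calc 2 * B * e = 2 * B * (e / n) * n := by field_simp
            _ ≤ (m : ℝ) ^ (r - 1) * (2 * ((n / m : ℕ) : ℝ) * m) := by gcongr
            _ = 2 * ((n / m : ℕ) : ℝ) * (m : ℝ) ^ r := by rw [h4]; ring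
            _ ≤ 2 * ((n / m : ℕ) : ℝ) * (B * m.choose r) := by gcongr
            _ = _ := by ring
        have h6 : (e : ℝ) ≤ ((n / m : ℕ) : ℝ) * m.choose r :=
          le_of_mul_le_mul_left h5 (by positivity)
        exact_mod_cast h6) v
      have h1 := dens (H.filter (fun h => v ∈ h)) (filter_subset _ _) U
        (fun h hh => hU2 h (mem_filter.1 hh).1 (mem_filter.1 hh).2)
      have h2 : (U.card : ℝ) ≤ m := by exact_mod_cast hU1
      exact h1.trans (by gcongr)
    have hsub : H ⊆ Cv.biUnion (fun v => H.filter (fun h => v ∈ h)) := by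
      intro h hh
      obtain ⟨v, hv1, hv2⟩ := hC2' h hh
      exact mem_biUnion.2 ⟨v, hv1, mem_filter.2 ⟨hh, hv2⟩⟩
    have h1 : H.card ≤ ∑ v ∈ Cv, (H.filter (fun h => v ∈ h)).card :=
      (card_le_card hsub).trans card_biUnion_le
    have h2 : (H.card : ℝ) ≤ ∑ v ∈ Cv, ((H.filter (fun h => v ∈ h)).card : ℝ) := by
      exact_mod_cast h1
    have h3 : (Cv.card : ℝ) ≤ 2 * t := by exact_mod_cast hC1
    calc (H.card : ℝ) ≤ ∑ _v ∈ Cv, (2 / ε) * (m : ℝ) := h2.trans (sum_le_sum (fun v _ => hlink v))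
      _ = Cv.card * ((2 / ε) * m) := by simp
      _ ≤ (2 * ((2 ^ r * B + 1) * x)) * ((2 / ε) * ((4 * r * B + 1) * y)) := by
        gcongr
        exact h3.trans (by gcongr)
      _ = _ := by rw [hC2]; ring
  rw [mul_min_of_nonneg _ _ (by positivity)]
  apply le_min
  · refine ha.trans ?_
    gcongr
    linarith
  · refine hb.trans ?_
    gcongr
    linarith

end Pool.Agent.H789Z.Unav
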